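import Pool.Agent.Helper34.Radon.Scale

set_option autoImplicit false

open MeasureTheory Real Complex Filter Topology Set
open scoped FourierTransform ContDiff ENNReal

noncomputable section

namespace Pool.Agent.Helper34.Radon

theorem fourier_flip {f g : ℝ → ℂ} (hf : Integrable f) (hg : Integrable g) :
    ∫ x : ℝ, f x * 𝓕 g x = ∫ u : ℝ, 𝓕 f u * g u := by
  have h1 : ∀ x : ℝ, f x * 𝓕 g x = ∫ u : ℝ, ((𝐞 (-(u * x)) : Circle) : ℂ) * (f x * g u) := by
    intro x
    rw [fourier_mul_eq, ← integral_const_mul]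
    refine integral_congr_ae (Eventually.of_forall fun u => ?_)
    simp only
    ring
  have h2 : ∀ u : ℝ, 𝓕 f u * g u = ∫ x : ℝ, ((𝐞 (-(u * x)) : Circle) : ℂ) * (f x * g u) := by
    intro u
    rw [fourier_mul_eq, ← integral_mul_const]
    refine integral_congr_ae (Eventually.of_forall fun x => ?_)
    simp only
    rw [mul_comm u x]
    ring
  simp_rw [h1, h2]
  rw [integral_integral_swap]
  have h3 : Integrable (fun z : ℝ × ℝ => f z.1 * g z.2)
      ((volume : Measure ℝ).prod volume) := hf.mul_prod hg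
  refine h3.norm.mono' ?_ (Eventually.of_forall fun z => ?_)
  · refine AEStronglyMeasurable.mul ?_ h3.aestronglyMeasurable
    exact (char_continuous (by fun_prop)).aestronglyMeasurable
  · simp only [Function.uncurry, norm_mul, Circle.norm_coe, one_mul, le_refl]

/-- a continuous integrable real valued function without positive frequencies vanishes -/
theorem zero_of_freq {F : ℝ → ℂ} (hF : Continuous F) (hi : Integrable F)
    (hreal : ∀ x, (starRingEnd ℂ) (F x) = F x)
    (h : ∀ κ : ℝ → ℂ, Dens κ → ∫ x : ℝ, F x * 𝓕 κ x = 0) (x : ℝ) : F x = 0 := by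
  have hFc : Continuous (𝓕 F : ℝ → ℂ) :=
    VectorFourier.fourierIntegral_continuous Real.continuous_fourierChar
      (by exact (innerSL ℝ).continuous₂) hi
  have hpos : ∀ᵐ u : ℝ, u ∈ Ioi (0 : ℝ) → 𝓕 F u = 0 := by
    refine IsOpen.ae_eq_zero_of_integral_contDiff_smul_eq_zero isOpen_Ioi
      (hFc.locallyIntegrable.locallyIntegrableOn _) ?_
    intro g hg hgc hgs
    have hD : Dens (fun u => (g u : ℂ)) := by
      refine ⟨Complex.ofRealCLM.contDiff.comp hg, ?_⟩
      by_cases hne : (tsupport g).Nonempty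
      · obtain ⟨a, ha, hmin⟩ := hgc.exists_isMinOn hne continuousOn_id
        obtain ⟨b, hb, hmax⟩ := hgc.exists_isMaxOn hne continuousOn_id
        refine ⟨a, b, hgs ha, fun u hu => ?_⟩
        have hu1 : u ∈ tsupport g := subset_closure (fun h0 => hu (by simp [h0]))
        exact ⟨hmin hu1, hmax hu1⟩
      · rw [not_nonempty_iff_eq_empty] at hne
        refine ⟨1, 1, one_pos, fun u hu => ?_⟩
        exfalso
        have hu1 : u ∈ tsupport g := subset_closure (fun h0 => hu (by simp [h0]))
        rw [hne] at hu1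
        exact hu1
    have h1 := h _ hD
    rw [fourier_flip hi hD.integrable] at h1
    rw [← h1]
    refine integral_congr_ae (Eventually.of_forall fun u => ?_)
    simp only [Complex.real_smul]
    ring
  have hconj : ∀ u : ℝ, 𝓕 F (-u) = (starRingEnd ℂ) (𝓕 F u) := by
    intro u
    rw [fourier_mul_eq, fourier_mul_eq, ← integral_conj]
    refine integral_congr_ae (Eventually.of_forall fun v => ?_)
    simp only [map_mul, hreal v]
    congr 1
    rw [← Circle.coe_inv_eq_conj, ← AddChar.map_neg_eq_inv]
    congr 2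
    ring
  have hneg : ∀ᵐ u : ℝ, u ∈ Iio (0 : ℝ) → 𝓕 F u = 0 := by
    have h1 : Measure.QuasiMeasurePreserving (fun u : ℝ => -u) volume volume :=
      (Measure.measurePreserving_neg (volume : Measure ℝ)).quasiMeasurePreserving
    filter_upwards [h1.ae hpos] with u hu hu0
    have h2 := hu (by simpa using hu0)
    have h3 := hconj u
    rw [h2] at h3
    exact (map_eq_zero (starRingEnd ℂ)).1 h3.symm
  have hae : ∀ᵐ u : ℝ, 𝓕 F u = 0 := by
    filter_upwards [hpos, hneg, Measure.ae_ne volume (0 : ℝ)] with u h1 h2 h3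
    rcases lt_or_gt_of_ne h3 with h4 | h4
    · exact h2 h4
    · exact h1 h4
  have hz : (𝓕 F : ℝ → ℂ) = fun _ => 0 :=
    (Continuous.ae_eq_iff_eq volume hFc continuous_const).1 hae
  have hint : Integrable (𝓕 F : ℝ → ℂ) := by
    rw [hz]
    exact integrable_zero _ _ _
  have h5 := hi.fourierInv_fourier_eq hint (v := x) hF.continuousAt
  rw [← h5, Real.fourierInv_eq, hz]
  simp

end Pool.Agent.Helper34.Radon
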