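import Pool.Agent.Helper34.Radon.Main

set_option autoImplicit false

open MeasureTheory Real Filter Topology Set
open scoped ContDiff ENNReal

noncomputable section

namespace Pool.Agent.Helper34.Radon

/-- rotation of the plane -/
def rot (φ : ℝ) (x : ℝ × ℝ) : ℝ × ℝ :=
  (x.1 * cos φ - x.2 * sin φ, x.1 * sin φ + x.2 * cos φ)

theorem rot_continuous (φ : ℝ) : Continuous (rot φ) := by
  unfold rot
  fun_prop

theorem rot_rot (φ : ℝ) (x : ℝ × ℝ) : rot (-φ) (rot φ x) = x := by
  unfold rot
  have h := sin_sq_add_cos_sq φ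
  refine Prod.ext ?_ ?_
  · simp only [cos_neg, sin_neg]
    linear_combination x.1 * h
  · simp only [cos_neg, sin_neg]
    linear_combination x.2 * h

theorem rot_rot' (φ : ℝ) (x : ℝ × ℝ) : rot φ (rot (-φ) x) = x := by
  have := rot_rot (-φ) x
  rwa [neg_neg] at this

theorem rot_dot (φ θ : ℝ) (x : ℝ × ℝ) :
    (rot φ x).1 * cos (θ + φ) + (rot φ x).2 * sin (θ + φ) = x.1 * cos θ + x.2 * sin θ := by
  unfold rot
  have h := sin_sq_add_cos_sq φ
  simp only [cos_add, sin_add]
  linear_combination (x.1 * cos θ + x.2 * sin θ) * h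

theorem rot_line (φ θ p t : ℝ) : rot φ (p * cos θ - t * sin θ, p * sin θ + t * cos θ) =
    (p * cos (θ + φ) - t * sin (θ + φ), p * sin (θ + φ) + t * cos (θ + φ)) := by
  unfold rot
  refine Prod.ext ?_ ?_
  · simp only [cos_add, sin_add]
    ring
  · simp only [cos_add, sin_add]
    ring

theorem rot_norm_le (φ : ℝ) (x : ℝ × ℝ) : ‖rot φ x‖ ≤ 2 * ‖x‖ := by
  rw [Prod.norm_def]
  have h1 := abs_fst_le x
  have h2 := abs_snd_le x
  have hc := abs_cos_le_one φ
  have hs := abs_sin_le_one φ
  refine max_le ?_ ?_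
  · rw [Real.norm_eq_abs]
    unfold rot
    simp only
    calc |x.1 * cos φ - x.2 * sin φ| ≤ |x.1 * cos φ| + |x.2 * sin φ| := abs_sub _ _
      _ = |x.1| * |cos φ| + |x.2| * |sin φ| := by rw [abs_mul, abs_mul]
      _ ≤ ‖x‖ * 1 + ‖x‖ * 1 := by gcongr
      _ = 2 * ‖x‖ := by ring
  · rw [Real.norm_eq_abs]
    unfold rot
    simp only
    calc |x.1 * sin φ + x.2 * cos φ| ≤ |x.1 * sin φ| + |x.2 * cos φ| := abs_add_le _ _
      _ = |x.1| * |sin φ| + |x.2| * |cos φ| := by rw [abs_mul, abs_mul]
      _ ≤ ‖x‖ * 1 + ‖x‖ * 1 := by gcongr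
      _ = 2 * ‖x‖ := by ring

/-- the rotation as a linear map -/
def rotL (φ : ℝ) : (ℝ × ℝ) →ₗ[ℝ] (ℝ × ℝ) where
  toFun := rot φ
  map_add' x y := by
    unfold rot
    refine Prod.ext ?_ ?_
    · simp only [Prod.fst_add, Prod.snd_add]; ring
    · simp only [Prod.fst_add, Prod.snd_add]; ring
  map_smul' c x := by
    unfold rot
    refine Prod.ext ?_ ?_
    · simp only [Prod.smul_fst, Prod.smul_snd, smul_eq_mul, RingHom.id_apply]; ring
    · simp only [Prod.smul_fst, Prod.smul_snd, smul_eq_mul, RingHom.id_apply]; ring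

theorem rotL_det (φ : ℝ) : LinearMap.det (rotL φ) = 1 := by
  rw [← LinearMap.det_toMatrix (Module.Basis.finTwoProd ℝ), Matrix.det_fin_two]
  simp only [LinearMap.toMatrix_apply, Module.Basis.finTwoProd_zero, Module.Basis.finTwoProd_one]
  have h := sin_sq_add_cos_sq φ
  simp [rotL, rot, Module.Basis.finTwoProd]
  linear_combination h

theorem rot_mp (φ : ℝ) : MeasurePreserving (rot φ) (volume : Measure (ℝ × ℝ)) volume := by
  refine ⟨(rot_continuous φ).measurable, ?_⟩
  have h := Measure.map_linearMap_addHaar_eq_smul_addHaar (volume : Measure (ℝ × ℝ))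
    (f := rotL φ) (by rw [rotL_det]; exact one_ne_zero)
  rw [rotL_det] at h
  have h2 : (rotL φ : ℝ × ℝ → ℝ × ℝ) = rot φ := rfl
  rw [h2] at h
  simpa using h

/-- the hypotheses in angle form -/
structure Ang (f : ℝ × ℝ → ℝ) : Prop where
  tempered : ∃ k : ℕ, Integrable (fun x : ℝ × ℝ => f x / (1 + ‖x‖) ^ k)
  alt : ∀ θ : ℝ,
    (∃ k : ℕ, Integrable (fun x : ℝ × ℝ => f x / (1 + |x.1 * cos θ + x.2 * sin θ|) ^ k)) ∨
    ∃ ε : ℝ, 0 < ε ∧ IntegrableOn (fun x : ℝ × ℝ => f x / (1 + ‖x‖))
      {x : ℝ × ℝ | |x.1 * cos θ + x.2 * sin θ| ≤ ε * ‖x‖}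
  zero : ∀ θ : ℝ, ∀ᵐ p : ℝ,
    ∫ t : ℝ, f (p * cos θ - t * sin θ, p * sin θ + t * cos θ) = 0

theorem meas_of_tempered {f : ℝ × ℝ → ℝ} {k : ℕ}
    (hk : Integrable (fun x : ℝ × ℝ => f x / (1 + ‖x‖) ^ k)) :
    AEStronglyMeasurable f volume := by
  have h1 : AEStronglyMeasurable (fun y : ℝ × ℝ => f y / (1 + ‖y‖) ^ k * (1 + ‖y‖) ^ k) volume :=
    hk.aestronglyMeasurable.mul (Continuous.aestronglyMeasurable (by fun_prop))
  refine h1.congr (Eventually.of_forall fun y => ?_)
  have : (1 + ‖y‖) ^ k ≠ 0 := by positivity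
  simp only
  field_simp

theorem Ang.meas {f : ℝ × ℝ → ℝ} (h : Ang f) : AEStronglyMeasurable f volume := by
  obtain ⟨k, hk⟩ := h.tempered
  exact meas_of_tempered hk

/-- angle hypotheses give slope hypotheses -/
theorem Ang.slope {f : ℝ × ℝ → ℝ} (h : Ang f) : Slope f := by
  refine ⟨h.tempered, fun t => ?_, fun t => ?_⟩
  · have hc := cos_arctan_pos t
    have hs : sin (arctan t) = t * cos (arctan t) := by
      rw [sin_arctan, cos_arctan]
      ring
    have hc1 := cos_le_one (arctan t)
    have hdot : ∀ y : ℝ × ℝ, |y.1 * cos (arctan t) + y.2 * sin (arctan t)| =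
        cos (arctan t) * |y.1 + t * y.2| := by
      intro y
      rw [hs, ← abs_of_pos hc, ← abs_mul, abs_of_pos hc]
      congr 1
      ring
    rcases h.alt (arctan t) with ⟨k, hk⟩ | ⟨ε, hε, hcone⟩
    · left
      refine ⟨k, hk.norm.mono' ?_ (Eventually.of_forall fun y => ?_)⟩
      · refine h.meas.mul (Continuous.aestronglyMeasurable ?_)
        exact Continuous.inv₀ (by fun_prop) (fun q => by positivity)
      · rw [hdot, norm_div, norm_div,
          Real.norm_of_nonneg (show (0 : ℝ) ≤ (1 + |y.1 + t * y.2|) ^ k by positivity),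
          Real.norm_of_nonneg
            (show (0 : ℝ) ≤ (1 + cos (arctan t) * |y.1 + t * y.2|) ^ k by positivity)]
        refine div_le_div_of_nonneg_left (norm_nonneg _) (by positivity) ?_
        refine pow_le_pow_left₀ (by positivity) ?_ k
        have := mul_le_mul_of_nonneg_right hc1 (abs_nonneg (y.1 + t * y.2))
        linarith
    · right
      refine ⟨ε, hε, hcone.mono_set fun y hy => ?_⟩
      have hy' : |y.1 + t * y.2| ≤ ε * ‖y‖ := hy
      show |y.1 * cos (arctan t) + y.2 * sin (arctan t)| ≤ ε * ‖y‖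
      rw [hdot]
      have := mul_le_mul_of_nonneg_right hc1 (abs_nonneg (y.1 + t * y.2))
      linarith
  · set c : ℝ := cos (arctan t) with hcdef
    have hc : 0 < c := cos_arctan_pos t
    have hs : sin (arctan t) = t * c := by
      rw [hcdef, sin_arctan, cos_arctan]
      ring
    have hsq : c ^ 2 * (1 + t ^ 2) = 1 := by
      have := sin_sq_add_cos_sq (arctan t)
      rw [hs, ← hcdef] at this
      linarith
    have hq : Measure.QuasiMeasurePreserving (fun p : ℝ => c * p) volume volume := by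
      refine ⟨measurable_const_mul c, ?_⟩
      rw [Real.map_volume_mul_left hc.ne']
      exact Measure.smul_absolutelyContinuous
    filter_upwards [hq.ae (h.zero (arctan t))] with p hp
    rw [← hcdef, hs] at hp
    have h1 := Measure.integral_comp_mul_left
      (fun u : ℝ => f (c * p * c - u * (t * c), c * p * (t * c) + u * c)) c⁻¹
    rw [hp, smul_zero] at h1
    have h2 := integral_sub_right_eq_self (μ := (volume : Measure ℝ))
      (fun u : ℝ => f (c * p * c - c⁻¹ * u * (t * c), c * p * (t * c) + c⁻¹ * u * c))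
      (c * p * (t * c))
    rw [h1] at h2
    rw [← h2]
    refine integral_congr_ae (Eventually.of_forall fun s => ?_)
    simp only
    congr 1
    have hc' := hc.ne'
    refine Prod.ext ?_ ?_
    · simp only
      field_simp
      linear_combination (-p) * hsq
    · simp only
      field_simp
      ring

theorem Ang.rot {f : ℝ × ℝ → ℝ} (h : Ang f) (φ : ℝ) : Ang (fun x => f (rot φ x)) := by
  have hmp := rot_mp φ
  have hm : AEStronglyMeasurable (fun x => f (Radon.rot φ x)) volume :=
    h.meas.comp_quasiMeasurePreserving hmp.quasiMeasurePreserving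
  refine ⟨?_, fun θ => ?_, fun θ => ?_⟩
  · obtain ⟨k, hk⟩ := h.tempered
    refine ⟨k, ?_⟩
    have h1 := (hmp.integrable_comp_of_integrable hk).norm.const_mul (2 ^ k)
    refine h1.mono' ?_ (Eventually.of_forall fun x => ?_)
    · refine hm.mul (Continuous.aestronglyMeasurable ?_)
      exact Continuous.inv₀ (by fun_prop) (fun q => by positivity)
    · simp only [Function.comp_def]
      rw [norm_div, norm_div,
        Real.norm_of_nonneg (show (0 : ℝ) ≤ (1 + ‖x‖) ^ k by positivity),
        Real.norm_of_nonneg (show (0 : ℝ) ≤ (1 + ‖Radon.rot φ x‖) ^ k by positivity),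
        mul_div_assoc', div_le_div_iff₀ (by positivity) (by positivity)]
      have h2 : (1 + ‖Radon.rot φ x‖) ^ k ≤ (2 * (1 + ‖x‖)) ^ k := by
        refine pow_le_pow_left₀ (by positivity) ?_ k
        have := rot_norm_le φ x
        linarith
      calc ‖f (Radon.rot φ x)‖ * (1 + ‖Radon.rot φ x‖) ^ k
          ≤ ‖f (Radon.rot φ x)‖ * (2 * (1 + ‖x‖)) ^ k := by gcongr
        _ = _ := by rw [mul_pow]; ring
  · rcases h.alt (θ + φ) with ⟨k, hk⟩ | ⟨ε, hε, hcone⟩
    · left
      refine ⟨k, ?_⟩
      have h1 := hmp.integrable_comp_of_integrable hk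
      refine h1.congr (Eventually.of_forall fun x => ?_)
      simp only [Function.comp_def]
      rw [rot_dot]
    · right
      refine ⟨ε / 2, half_pos hε, ?_⟩
      set A : Set (ℝ × ℝ) := {x : ℝ × ℝ | |x.1 * cos (θ + φ) + x.2 * sin (θ + φ)| ≤ ε * ‖x‖}
        with hA
      have hAm : MeasurableSet A := by
        refine (isClosed_le ?_ ?_).measurableSet
        · fun_prop
        · fun_prop
      set A' : Set (ℝ × ℝ) := {x : ℝ × ℝ | |x.1 * cos θ + x.2 * sin θ| ≤ ε / 2 * ‖x‖} with hA'
      have hAm' : MeasurableSet A' := by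
        refine (isClosed_le ?_ ?_).measurableSet
        · fun_prop
        · fun_prop
      have h1 : Integrable (A.indicator (fun x : ℝ × ℝ => f x / (1 + ‖x‖))) :=
        hcone.integrable_indicator hAm
      have h2 := (hmp.integrable_comp_of_integrable h1).norm.const_mul 2
      show Integrable _ (volume.restrict A')
      refine (h2.restrict (s := A')).mono' ?_ ?_
      · refine AEStronglyMeasurable.restrict ?_
        refine hm.mul (Continuous.aestronglyMeasurable ?_)
        exact Continuous.inv₀ (by fun_prop) (fun q => by positivity)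
      · filter_upwards [ae_restrict_mem hAm'] with x hx
        have hx' : |x.1 * cos θ + x.2 * sin θ| ≤ ε / 2 * ‖x‖ := hx
        have hn1 : ‖x‖ ≤ 2 * ‖Radon.rot φ x‖ := by
          have := rot_norm_le (-φ) (Radon.rot φ x)
          rwa [rot_rot] at this
        have hmem : Radon.rot φ x ∈ A := by
          show |(Radon.rot φ x).1 * cos (θ + φ) + (Radon.rot φ x).2 * sin (θ + φ)| ≤
            ε * ‖Radon.rot φ x‖
          rw [rot_dot]
          nlinarith
        simp only [Function.comp_def]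
        rw [Set.indicator_of_mem hmem, norm_div, norm_div,
          Real.norm_of_nonneg (show (0 : ℝ) ≤ 1 + ‖x‖ by positivity),
          Real.norm_of_nonneg (show (0 : ℝ) ≤ 1 + ‖Radon.rot φ x‖ by positivity),
          mul_div_assoc', div_le_div_iff₀ (by positivity) (by positivity)]
        have h3 := rot_norm_le φ x
        have h4 : 1 + ‖Radon.rot φ x‖ ≤ 2 * (1 + ‖x‖) := by linarith
        calc ‖f (Radon.rot φ x)‖ * (1 + ‖Radon.rot φ x‖)
            ≤ ‖f (Radon.rot φ x)‖ * (2 * (1 + ‖x‖)) := by gcongr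
          _ = _ := by ring
  · filter_upwards [h.zero (θ + φ)] with p hp
    simp_rw [rot_line]
    exact hp

theorem Ang.exists_weight {f : ℝ × ℝ → ℝ} (h : Ang f) : ∃ θ : ℝ, ∃ k : ℕ,
    Integrable (fun x : ℝ × ℝ => f x / (1 + |x.1 * cos θ + x.2 * sin θ|) ^ k) := by
  obtain ⟨t, k, hk⟩ := exists_WA (h.slope.adm 0)
  refine ⟨arctan t, k, ?_⟩
  have hc := cos_arctan_pos t
  have hs : sin (arctan t) = t * cos (arctan t) := by
    rw [sin_arctan, cos_arctan]
    ring
  have hc1 := cos_le_one (arctan t)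
  set c : ℝ := cos (arctan t) with hcdef
  have h1 := hk.const_mul ((c ^ k)⁻¹)
  refine h1.mono' ?_ (Eventually.of_forall fun y => ?_)
  · refine h.meas.mul (Continuous.aestronglyMeasurable ?_)
    exact Continuous.inv₀ (by fun_prop) (fun q => by positivity)
  · have hdot : |y.1 * c + y.2 * sin (arctan t)| = c * |y.1 + t * y.2| := by
      rw [hs, ← abs_of_pos hc, ← abs_mul, abs_of_pos hc]
      congr 1
      ring
    rw [hdot, norm_div,
      Real.norm_of_nonneg (show (0 : ℝ) ≤ (1 + c * |y.1 + t * y.2|) ^ k by positivity),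
      Complex.norm_real]
    simp only [add_zero]
    have h2 : (c * (1 + |y.1 + t * y.2|)) ^ k ≤ (1 + c * |y.1 + t * y.2|) ^ k := by
      refine pow_le_pow_left₀ (by positivity) ?_ k
      linarith
    calc ‖f y‖ / (1 + c * |y.1 + t * y.2|) ^ k
        ≤ ‖f y‖ / (c * (1 + |y.1 + t * y.2|)) ^ k :=
          div_le_div_of_nonneg_left (norm_nonneg _) (by positivity) h2
      _ = _ := by
          rw [mul_pow]
          field_simp

theorem ang_main {f : ℝ × ℝ → ℝ} (h : Ang f) : ∀ᵐ x : ℝ × ℝ, f x = 0 := by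
  obtain ⟨θ, k, hk⟩ := h.exists_weight
  set φ : ℝ := θ - π / 2 with hφ
  have hr := h.rot φ
  have hor : ∃ k : ℕ, Integrable (fun x : ℝ × ℝ => f (rot φ x) / (1 + |x.2|) ^ k) := by
    refine ⟨k, ?_⟩
    have h1 := (rot_mp φ).integrable_comp_of_integrable hk
    refine h1.congr (Eventually.of_forall fun x => ?_)
    simp only [Function.comp_def]
    have h2 := rot_dot φ (π / 2) x
    have h3 : π / 2 + φ = θ := by rw [hφ]; ring
    rw [h3, cos_pi_div_two, sin_pi_div_two, mul_zero, mul_one, zero_add] at h2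
    rw [h2]
  have h0 := slope_main hr.slope hor
  have h1 := (rot_mp (-φ)).quasiMeasurePreserving.ae h0
  filter_upwards [h1] with x hx
  rwa [rot_rot'] at hx

end Pool.Agent.Helper34.Radon
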