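import Pool.Agent.Helper34.Radon.Cone

set_option autoImplicit false

open MeasureTheory Real Complex Filter Topology Set
open scoped FourierTransform ContDiff ENNReal

noncomputable section

namespace Pool.Agent.Helper34.Radon

/-- the pairing vanishes for all windows close to `t` -/
def GoodAt (g : ℝ × ℝ → ℂ) (κ : ℝ → ℂ) (t : ℝ) : Prop :=
  ∃ ε : ℝ, 0 < ε ∧ ∀ m : ℝ → ℂ, ContDiff ℝ ∞ m → (∀ τ, m τ ≠ 0 → |τ - t| < ε) → T g m κ = 0

theorem GoodAt.nhds {g : ℝ × ℝ → ℂ} {κ : ℝ → ℂ} {t : ℝ} (h : GoodAt g κ t) :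
    ∃ ε : ℝ, 0 < ε ∧ ∀ t' : ℝ, |t' - t| < ε → GoodAt g κ t' := by
  obtain ⟨ε, hε, h⟩ := h
  refine ⟨ε / 2, half_pos hε, fun t' ht' => ⟨ε / 2, half_pos hε, fun m hm hs => ?_⟩⟩
  refine h m hm fun τ hτ => ?_
  have h1 := hs τ hτ
  have h2 : |τ - t| ≤ |τ - t'| + |t' - t| := abs_sub_le τ t' t
  linarith

/-- directions with cone integrability are good -/
theorem good_of_WB {g : ℝ × ℝ → ℂ} (hg : Adm g) {κ : ℝ → ℂ} (hκ : Dens κ) {t : ℝ}
    (hB : WB g t) : GoodAt g κ t := by
  obtain ⟨ε, hε, k, hint⟩ := cone_integrable hg hB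
  obtain ⟨C, h0, hC⟩ := hκ.decay k
  refine ⟨ε, hε, fun m hm hs => ?_⟩
  set I : Set ℝ := Ioo (t - ε) (t + ε) with hI
  have hmI : ∀ τ, τ ∉ I → m τ = 0 := by
    intro τ hτ
    by_contra hne
    have h1 := hs τ hne
    rw [abs_lt] at h1
    exact hτ ⟨by linarith [h1.1], by linarith [h1.2]⟩
  have hmb : ∃ M : ℝ, ∀ τ, ‖m τ‖ ≤ M := by
    have hc : HasCompactSupport m := by
      refine HasCompactSupport.intro (isCompact_Icc (a := t - ε) (b := t + ε)) ?_
      intro u hu
      by_contra hne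
      have h1 := hs u hne
      rw [abs_lt] at h1
      exact hu ⟨by linarith [h1.1], by linarith [h1.2]⟩
    exact hc.exists_bound_of_continuous hm.continuous
  obtain ⟨M, hM⟩ := hmb
  have hH : ∀ y : ℝ × ℝ, H m κ y.1 y.2 =
      ∫ τ : ℝ, m τ * 𝓕 κ (y.1 + τ * y.2) ∂(volume.restrict I) := by
    intro y
    unfold H
    rw [setIntegral_eq_integral_of_forall_compl_eq_zero]
    intro τ hτ
    rw [hmI τ hτ, zero_mul]
  unfold T
  simp_rw [hH, ← integral_const_mul]
  have hprod : Integrable (fun q : ℝ × (ℝ × ℝ) =>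
      g q.2 * (m q.1 * 𝓕 κ (q.2.1 + q.1 * q.2.2))) ((volume.restrict I).prod volume) := by
    refine (hint.const_mul (M * C)).mono' ?_ (Eventually.of_forall fun q => ?_)
    · refine (hg.meas.comp_snd).mul (Continuous.aestronglyMeasurable ?_)
      exact (hm.continuous.comp continuous_fst).mul (hκ.continuous.comp (by fun_prop))
    · rw [norm_mul, norm_mul, mul_div_assoc', le_div_iff₀ (by positivity)]
      have h1 := hC (q.2.1 + q.1 * q.2.2)
      calc ‖g q.2‖ * (‖m q.1‖ * ‖𝓕 κ (q.2.1 + q.1 * q.2.2)‖) *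
            (1 + |q.2.1 + q.1 * q.2.2|) ^ k
          = ‖g q.2‖ * (‖m q.1‖ * (‖𝓕 κ (q.2.1 + q.1 * q.2.2)‖ *
            (1 + |q.2.1 + q.1 * q.2.2|) ^ k)) := by ring
        _ ≤ ‖g q.2‖ * (M * C) := by
            refine mul_le_mul_of_nonneg_left ?_ (norm_nonneg _)
            exact mul_le_mul (hM _) h1 (by positivity) ((norm_nonneg _).trans (hM 0))
        _ = _ := by ring
  have hswap := integral_integral_swap (μ := volume.restrict I) (ν := (volume : Measure (ℝ × ℝ)))
    (f := fun τ y => g y * (m τ * 𝓕 κ (y.1 + τ * y.2))) hprod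
  rw [← hswap]
  have hz : ∀ᵐ τ ∂(volume.restrict I), ∫ y : ℝ × ℝ, g y * (m τ * 𝓕 κ (y.1 + τ * y.2)) = 0 := by
    filter_upwards [hint.prod_right_ae] with τ hτ
    have h1 := plane_zero hg hκ (t := τ) ⟨k, hτ⟩
    have h2 : ∀ y : ℝ × ℝ, g y * (m τ * 𝓕 κ (y.1 + τ * y.2)) =
        m τ * (g y * 𝓕 κ (y.1 + τ * y.2)) := fun y => by ring
    simp_rw [h2]
    rw [integral_const_mul, h1, mul_zero]
  rw [integral_congr_ae hz]
  simp

theorem exists_window : ∃ μ : ℝ → ℂ, Win 1 μ ∧ ∫ σ, μ σ = 1 := by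
  let b : ContDiffBump (0 : ℝ) := ⟨1 / 2, 1, by norm_num, by norm_num⟩
  refine ⟨fun x => ((b.normed volume x : ℝ) : ℂ), ⟨?_, ?_⟩, ?_⟩
  · exact Complex.ofRealCLM.contDiff.comp b.contDiff_normed
  · intro τ hτ
    have h1 : b.normed volume τ ≠ 0 := fun h0 => hτ (by simp [h0])
    have h2 : τ ∈ Function.support (b.normed volume) := h1
    rw [b.support_normed_eq, Metric.mem_ball, Real.dist_eq, sub_zero] at h2
    exact h2.le
  · show ∫ x : ℝ, ((b.normed volume x : ℝ) : ℂ) = 1
    have h1 : ∫ x : ℝ, ((b.normed volume x : ℝ) : ℂ) = ((∫ x : ℝ, b.normed volume x : ℝ) : ℂ) :=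
      integral_ofReal
    rw [h1, b.integral_normed]
    simp

theorem window_win {μ : ℝ → ℂ} (hμ : Win 1 μ) {S : ℝ} (hS : 0 < S) (t : ℝ) :
    ContDiff ℝ ∞ (fun τ : ℝ => μ (S * (τ - t))) ∧
      ∀ τ, μ (S * (τ - t)) ≠ 0 → |τ - t| ≤ 1 / S := by
  refine ⟨hμ.smooth.comp (by fun_prop), fun τ hτ => ?_⟩
  have h1 := hμ.supp _ hτ
  rw [abs_mul, abs_of_pos hS] at h1
  rw [le_div_iff₀ hS]
  linarith

/-- a window supported in the good set pairs to zero -/
theorem zero_of_good {g : ℝ × ℝ → ℂ} (hg : Adm g) {κ : ℝ → ℂ} (hκ : Dens κ) {R : ℝ}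
    {m : ℝ → ℂ} (hm : Win R m) (h : ∀ τ ∈ tsupport m, GoodAt g κ τ) : T g m κ = 0 := by
  obtain ⟨μ, hμ, hμ1⟩ := exists_window
  have key := average_tendsto hg hm hμ hκ
  rw [hμ1, one_mul] at key
  -- uniform radius
  have hcov : ∃ δ > 0, ∀ x ∈ tsupport m, ∃ i : tsupport m,
      Metric.ball x δ ⊆ Metric.ball (i : ℝ) (h i i.2).choose := by
    refine lebesgue_number_lemma_of_metric (c := fun i : tsupport m =>
      Metric.ball (i : ℝ) (h i i.2).choose) hm.cpt (fun i => Metric.isOpen_ball) ?_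
    intro x hx
    rw [mem_iUnion]
    exact ⟨⟨x, hx⟩, Metric.mem_ball_self (h x hx).choose_spec.1⟩
  obtain ⟨δ, hδ, hcov⟩ := hcov
  have hev : (fun S : ℝ => ∫ t : ℝ, m t * Phi g μ κ S t) =ᶠ[atTop] fun _ => (0 : ℂ) := by
    filter_upwards [eventually_gt_atTop (1 / δ), eventually_gt_atTop 0] with S hS hS0
    have h1 : ∀ t : ℝ, m t * Phi g μ κ S t = 0 := by
      intro t
      by_cases hmt : m t = 0
      · simp [hmt]
      have ht : t ∈ tsupport m := subset_closure hmt
      obtain ⟨i, hi⟩ := hcov t ht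
      have hw := window_win hμ hS0 t
      have hT : T g (fun τ => μ (S * (τ - t))) κ = 0 := by
        refine (h i i.2).choose_spec.2 _ hw.1 fun τ hτ => ?_
        have h2 := hw.2 τ hτ
        have h3 : 1 / S < δ := by
          rw [div_lt_iff₀ hS0]
          rw [div_lt_iff₀ hδ] at hS
          linarith
        have h4 : τ ∈ Metric.ball t δ := by
          rw [Metric.mem_ball, Real.dist_eq]
          linarith
        have h5 := hi h4
        rwa [Metric.mem_ball, Real.dist_eq] at h5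
      rw [T_window g μ κ hS0 t] at hT
      have hS' : (S : ℂ)⁻¹ ≠ 0 := inv_ne_zero (by exact_mod_cast hS0.ne')
      have := (mul_eq_zero.1 hT).resolve_left hS'
      rw [this, mul_zero]
    simp_rw [h1]
    simp
  have h0 : Tendsto (fun S : ℝ => ∫ t : ℝ, m t * Phi g μ κ S t) atTop (𝓝 0) :=
    tendsto_const_nhds.congr' hev.symm
  exact tendsto_nhds_unique key h0

/-- directions with controlled weight -/
def E (g : ℝ × ℝ → ℂ) (n : ℕ) : Set ℝ :=
  {t | ∫⁻ y : ℝ × ℝ, ENNReal.ofReal (‖g y‖ / (1 + |y.1 + t * y.2|) ^ n) ≤ n}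

theorem E_closed {g : ℝ × ℝ → ℂ} (hg : AEStronglyMeasurable g volume) (n : ℕ) :
    IsClosed (E g n) := by
  refine IsSeqClosed.isClosed ?_
  intro u t hu ht
  have hmeas : ∀ s : ℝ, AEMeasurable
      (fun y : ℝ × ℝ => ENNReal.ofReal (‖g y‖ / (1 + |y.1 + s * y.2|) ^ n)) volume := by
    intro s
    refine AEMeasurable.ennreal_ofReal ?_
    refine AEMeasurable.div hg.norm.aemeasurable (Continuous.aemeasurable ?_)
    fun_prop
  have h1 := lintegral_liminf_le' (μ := (volume : Measure (ℝ × ℝ))) (u := atTop)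
    (fun i => hmeas (u i))
  have h2 : ∀ y : ℝ × ℝ, liminf (fun i => ENNReal.ofReal (‖g y‖ / (1 + |y.1 + u i * y.2|) ^ n))
      atTop = ENNReal.ofReal (‖g y‖ / (1 + |y.1 + t * y.2|) ^ n) := by
    intro y
    refine Tendsto.liminf_eq ?_
    refine (ENNReal.continuous_ofReal.tendsto _).comp ?_
    have h3 : Continuous (fun s : ℝ => ‖g y‖ / (1 + |y.1 + s * y.2|) ^ n) := by
      refine continuous_const.div (by fun_prop) fun s => by positivity
    exact (h3.tendsto t).comp ht
  simp_rw [h2] at h1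
  refine h1.trans ?_
  refine liminf_le_of_frequently_le' (Frequently.of_forall fun i => hu i)

theorem E_cover {g : ℝ × ℝ → ℂ} (hg : Adm g) {t : ℝ} (hA : WA g t) :
    ∃ n : ℕ, t ∈ E g n := by
  obtain ⟨k, hk⟩ := hA
  obtain ⟨N, hN⟩ := exists_nat_ge (∫ y : ℝ × ℝ, ‖g y‖ / (1 + |y.1 + t * y.2|) ^ k)
  refine ⟨max k N, ?_⟩
  have h1 := wt_mono hg.meas (le_max_left k N) hk
  show ∫⁻ y : ℝ × ℝ, ENNReal.ofReal (‖g y‖ / (1 + |y.1 + t * y.2|) ^ (max k N)) ≤ _
  rw [← ofReal_integral_eq_lintegral_ofReal h1 (Eventually.of_forall fun y => by positivity)]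
  rw [← ENNReal.ofReal_natCast]
  refine ENNReal.ofReal_le_ofReal ?_
  have h2 : ∫ y : ℝ × ℝ, ‖g y‖ / (1 + |y.1 + t * y.2|) ^ (max k N) ≤
      ∫ y : ℝ × ℝ, ‖g y‖ / (1 + |y.1 + t * y.2|) ^ k := by
    refine integral_mono h1 hk fun y => ?_
    refine div_le_div_of_nonneg_left (norm_nonneg _) (by positivity) ?_
    exact pow_le_pow_right₀ (by linarith [abs_nonneg (y.1 + t * y.2)]) (le_max_left k N)
  have h3 : (N : ℝ) ≤ ((max k N : ℕ) : ℝ) := by exact_mod_cast le_max_right k N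
  linarith

theorem E_spec {g : ℝ × ℝ → ℂ} (hg : AEStronglyMeasurable g volume) {n : ℕ} {t : ℝ}
    (ht : t ∈ E g n) : Integrable (fun y : ℝ × ℝ => ‖g y‖ / (1 + |y.1 + t * y.2|) ^ n) ∧
      ∫ y : ℝ × ℝ, ‖g y‖ / (1 + |y.1 + t * y.2|) ^ n ≤ n := by
  have hmeas : AEStronglyMeasurable
      (fun y : ℝ × ℝ => ‖g y‖ / (1 + |y.1 + t * y.2|) ^ n) volume := by
    refine hg.norm.mul (Continuous.aestronglyMeasurable ?_)
    refine Continuous.inv₀ (by fun_prop) (fun y => by positivity)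
  have hfin : Integrable (fun y : ℝ × ℝ => ‖g y‖ / (1 + |y.1 + t * y.2|) ^ n) := by
    refine ⟨hmeas, ?_⟩
    rw [hasFiniteIntegral_iff_ofReal (Eventually.of_forall fun y => by positivity)]
    exact lt_of_le_of_lt ht (ENNReal.natCast_lt_top n)
  refine ⟨hfin, ?_⟩
  rw [integral_eq_lintegral_of_nonneg_ae (Eventually.of_forall fun y => by positivity) hmeas]
  refine ENNReal.toReal_le_of_le_ofReal (by positivity) ?_
  rw [ENNReal.ofReal_natCast]
  exact ht

/-- every direction is good -/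
theorem all_good {g : ℝ × ℝ → ℂ} (hg : Adm g) {κ : ℝ → ℂ} (hκ : Dens κ) :
    ∀ t : ℝ, GoodAt g κ t := by
  by_contra hne
  push Not at hne
  obtain ⟨tb, htb⟩ := hne
  let K : Set ℝ := {t | ¬ GoodAt g κ t}
  have hKA : ∀ t : ℝ, ¬ GoodAt g κ t → WA g t := by
    intro t ht
    rcases hg.alt t with h | h
    · exact h
    · exact absurd (good_of_WB hg hκ h) ht
  have hKc : IsClosed K := by
    have : IsOpen {t | GoodAt g κ t} := by
      rw [Metric.isOpen_iff]
      intro t ht
      obtain ⟨ε, hε, h⟩ := ht.nhds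
      refine ⟨ε, hε, fun t' ht' => h t' ?_⟩
      rwa [Metric.mem_ball, Real.dist_eq] at ht'
    exact this.isClosed_compl
  have : CompleteSpace K := hKc.completeSpace_coe
  have : Nonempty K := ⟨⟨tb, htb⟩⟩
  have hB := nonempty_interior_of_iUnion_of_closed (X := K)
    (f := fun n : ℕ => (Subtype.val ⁻¹' (E g n) : Set K))
    (fun n => (E_closed hg.meas n).preimage continuous_subtype_val) (by
      rw [eq_univ_iff_forall]
      intro x
      rw [mem_iUnion]
      exact E_cover hg (hKA x x.2))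
  obtain ⟨n, x, hx⟩ := hB
  rw [mem_interior_iff_mem_nhds, Metric.mem_nhds_iff] at hx
  obtain ⟨ε, hε, hball⟩ := hx
  obtain ⟨t0, ht0⟩ := x
  apply ht0
  have hE : ∀ t' : ℝ, ¬ GoodAt g κ t' → |t' - t0| < ε → t' ∈ E g n := by
    intro t' ht' hd
    have : (⟨t', ht'⟩ : K) ∈ Metric.ball (⟨t0, ht0⟩ : K) ε := by
      rw [Metric.mem_ball, Subtype.dist_eq, Real.dist_eq]
      exact hd
    exact hball this
  obtain ⟨μ, hμ, hμ1⟩ := exists_window
  refine ⟨ε / 2, half_pos hε, fun m hm hs => ?_⟩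
  have hmw : Win (|t0| + ε) m := by
    refine ⟨hm, fun τ hτ => ?_⟩
    have h1 := hs τ hτ
    have h2 := abs_sub_abs_le_abs_sub τ t0
    linarith
  have key := average_tendsto hg hmw hμ hκ
  rw [hμ1, one_mul] at key
  obtain ⟨C, hC0, hC⟩ := Phi_bound (g := g) hμ hκ n
  have h0 : Tendsto (fun S : ℝ => ∫ t : ℝ, m t * Phi g μ κ S t) atTop (𝓝 0) := by
    have hz : (0 : ℂ) = ∫ t : ℝ, m t * (0 : ℂ) := by simp
    rw [hz]
    refine tendsto_integral_filter_of_dominated_convergence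
      (fun t => ‖m t‖ * (C * n)) ?_ ?_ (hmw.integrable.norm.mul_const _) ?_
    · filter_upwards [eventually_gt_atTop 0] with S hS
      exact (hmw.smooth.continuous.mul (Phi_continuous hg hμ hκ hS)).aestronglyMeasurable
    · filter_upwards [eventually_gt_atTop (2 / ε), eventually_gt_atTop 0] with S hS hS0
      refine Eventually.of_forall fun t => ?_
      rw [norm_mul]
      by_cases hmt : m t = 0
      · simp [hmt]
      refine mul_le_mul_of_nonneg_left ?_ (norm_nonneg _)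
      have ht := hs t hmt
      have hS1 : 1 / S < ε / 2 := by
        rw [div_lt_iff₀ hS0]
        rw [div_lt_iff₀ hε] at hS
        linarith
      by_cases hcl : ∃ t1 : ℝ, ¬ GoodAt g κ t1 ∧ |t - t1| ≤ 1 / S
      · obtain ⟨t1, ht1, hd⟩ := hcl
        have h1 : |t1 - t0| < ε := by
          have h2 := abs_sub_le t1 t t0
          rw [abs_sub_comm t1 t] at h2
          linarith
        obtain ⟨h3, h4⟩ := E_spec hg.meas (hE t1 ht1 h1)
        refine (hC S hS0 t t1 hd h3).trans ?_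
        exact mul_le_mul_of_nonneg_left h4 hC0
      · push Not at hcl
        have hw := window_win hμ hS0 t
        have hT : T g (fun τ => μ (S * (τ - t))) κ = 0 := by
          have hwin : Win (|t| + 1 / S) (fun τ => μ (S * (τ - t))) := by
            refine ⟨hw.1, fun τ hτ => ?_⟩
            have h1 := hw.2 τ hτ
            have h2 := abs_sub_abs_le_abs_sub τ t
            linarith
          refine zero_of_good hg hκ hwin fun τ hτ => ?_
          by_contra hb
          have h1 := hcl τ hb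
          have h2 : τ ∈ {x : ℝ | |x - t| ≤ 1 / S} := by
            refine closure_minimal (fun x hx => hw.2 x hx) ?_ hτ
            exact isClosed_le (f := fun x : ℝ => |x - t|) (by fun_prop) continuous_const
          have h3 : |τ - t| ≤ 1 / S := h2
          rw [abs_sub_comm] at h3
          linarith
        rw [T_window g μ κ hS0 t] at hT
        have hS' : (S : ℂ)⁻¹ ≠ 0 := inv_ne_zero (by exact_mod_cast hS0.ne')
        rw [(mul_eq_zero.1 hT).resolve_left hS', norm_zero]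
        positivity
    · refine Eventually.of_forall fun t => ?_
      by_cases hgt : GoodAt g κ t
      · -- the windows vanish for large `S`
        obtain ⟨δ, hδ, hgood⟩ := hgt
        refine Tendsto.const_mul _ ?_
        refine tendsto_const_nhds.congr' ?_
        filter_upwards [eventually_gt_atTop (1 / δ), eventually_gt_atTop 0] with S hS hS0
        have hw := window_win hμ hS0 t
        have hT : T g (fun τ => μ (S * (τ - t))) κ = 0 := by
          refine hgood _ hw.1 fun τ hτ => ?_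
          have h2 := hw.2 τ hτ
          have h3 : 1 / S < δ := by
            rw [div_lt_iff₀ hS0]
            rw [div_lt_iff₀ hδ] at hS
            linarith
          linarith
        rw [T_window g μ κ hS0 t] at hT
        have hS' : (S : ℂ)⁻¹ ≠ 0 := inv_ne_zero (by exact_mod_cast hS0.ne')
        exact ((mul_eq_zero.1 hT).resolve_left hS').symm
      · exact (Phi_tendsto hg hμ hκ (hKA t hgt)).const_mul _
  exact tendsto_nhds_unique key h0

/-- the pairing vanishes for all windows -/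
theorem T_zero {g : ℝ × ℝ → ℂ} (hg : Adm g) {κ : ℝ → ℂ} (hκ : Dens κ) {R : ℝ} {m : ℝ → ℂ}
    (hm : Win R m) : T g m κ = 0 :=
  zero_of_good hg hκ hm fun τ _ => all_good hg hκ τ

end Pool.Agent.Helper34.Radon
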