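import Pool.Agent.Helper34.Radon.Baire

set_option autoImplicit false

open MeasureTheory Real Complex Filter Topology Set
open scoped FourierTransform ContDiff ENNReal

noncomputable section

namespace Pool.Agent.Helper34.Radon

/-- a window with value one at the origin -/
theorem exists_window_one : ∃ η : ℝ → ℂ, Win 1 η ∧ η 0 = 1 := by
  let b : ContDiffBump (0 : ℝ) := ⟨1 / 2, 1, by norm_num, by norm_num⟩
  refine ⟨fun x => ((b x : ℝ) : ℂ), ⟨?_, ?_⟩, ?_⟩
  · exact Complex.ofRealCLM.contDiff.comp b.contDiff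
  · intro τ hτ
    have h1 : b τ ≠ 0 := fun h0 => hτ (by simp [h0])
    have h2 : τ ∈ Function.support b := h1
    rw [b.support_eq, Metric.mem_ball, Real.dist_eq, sub_zero] at h2
    exact h2.le
  · have h1 : b 0 = 1 := b.one_of_mem_closedBall (Metric.mem_closedBall_self b.rIn_pos.le)
    simp [h1]

theorem Win.scale {R : ℝ} {η : ℝ → ℂ} (h : Win R η) {B : ℝ} (hB : 0 < B) :
    Win (B * R) (fun τ => η (τ / B)) := by
  refine ⟨h.smooth.comp (by fun_prop), fun τ hτ => ?_⟩
  have h1 := h.supp _ hτ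
  rw [abs_div, abs_of_pos hB, div_le_iff₀ hB] at h1
  linarith

theorem H_scale (η κ : ℝ → ℂ) {B : ℝ} (hB : 0 < B) (p s : ℝ) :
    H (fun τ => η (τ / B)) κ p s = (B : ℂ) * H η κ p (B * s) := by
  unfold H
  have h1 := Measure.integral_comp_div (fun σ : ℝ => η σ * 𝓕 κ (p + σ * (B * s))) B
  rw [abs_of_pos hB, Complex.real_smul] at h1
  rw [← h1]
  refine integral_congr_ae (Eventually.of_forall fun τ => ?_)
  have h2 : p + τ / B * (B * s) = p + τ * s := by
    field_simp
  simp only [h2]

/-- integrability of `F` against `H` -/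
theorem FH_integrable {F : ℝ × ℝ → ℂ} (hF : Continuous F) {C0 : ℝ} {k : ℕ}
    (hb : ∀ y, ‖F y‖ ≤ C0 * (1 + ‖y‖) ^ k) {R : ℝ} {η κ : ℝ → ℂ} (hη : Win R η)
    (hκ : Dens κ) {a : ℝ → ℝ} (ha : Continuous a) (ha1 : ∀ r, |a r| ≤ |r|) :
    Integrable (fun y : ℝ × ℝ => F (y.1, a y.2) * H η κ y.1 y.2)
      ((volume : Measure ℝ).prod volume) := by
  obtain ⟨C, h0, hC⟩ := H_bound hη hκ (k + 2) (k + 2)
  have hC0 : 0 ≤ C0 := by
    have := hb 0
    simp only [norm_zero, add_zero, one_pow, mul_one] at this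
    exact (norm_nonneg _).trans this
  have hi : Integrable (fun x : ℝ => (1 + x ^ 2)⁻¹) := integrable_inv_one_add_sq
  have h1 : Integrable (fun y : ℝ × ℝ => (C0 * C * (1 + y.1 ^ 2)⁻¹) * (1 + y.2 ^ 2)⁻¹)
      ((volume : Measure ℝ).prod volume) := (hi.const_mul _).mul_prod hi
  refine h1.mono' ?_ (Eventually.of_forall fun y => ?_)
  · refine Continuous.aestronglyMeasurable ?_
    refine (hF.comp (by fun_prop)).mul ?_
    exact Hcomp_continuous hη hκ continuous_fst continuous_snd
  · rw [norm_mul]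
    have h2 := hC y.1 y.2
    have h3 : ‖F (y.1, a y.2)‖ ≤ C0 * ((1 + |y.1|) * (1 + |y.2|)) ^ k := by
      refine (hb (y.1, a y.2)).trans ?_
      have h4 := one_add_norm_le (y.1, a y.2)
      have h5 : (1 + |y.1|) * (1 + |a y.2|) ≤ (1 + |y.1|) * (1 + |y.2|) := by
        have := ha1 y.2
        gcongr
      have h6 := h4.trans h5
      gcongr
    have h4 : ∀ x : ℝ, 1 + x ^ 2 ≤ (1 + |x|) ^ 2 := by
      intro x
      nlinarith [abs_nonneg x, sq_abs x]
    have h5 : ‖H η κ y.1 y.2‖ * (((1 + |y.1|) * (1 + |y.2|)) ^ k *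
        ((1 + y.1 ^ 2) * (1 + y.2 ^ 2))) ≤ C := by
      refine le_trans ?_ h2
      have h6 : (1 + y.1 ^ 2) * (1 + y.2 ^ 2) ≤ (1 + |y.1|) ^ 2 * (1 + |y.2|) ^ 2 :=
        mul_le_mul (h4 _) (h4 _) (by positivity) (by positivity)
      calc ‖H η κ y.1 y.2‖ * (((1 + |y.1|) * (1 + |y.2|)) ^ k *
            ((1 + y.1 ^ 2) * (1 + y.2 ^ 2)))
          ≤ ‖H η κ y.1 y.2‖ * (((1 + |y.1|) * (1 + |y.2|)) ^ k *
            ((1 + |y.1|) ^ 2 * (1 + |y.2|) ^ 2)) := by gcongr
        _ = _ := by rw [mul_pow]; ring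
    calc ‖F (y.1, a y.2)‖ * ‖H η κ y.1 y.2‖
        ≤ C0 * ((1 + |y.1|) * (1 + |y.2|)) ^ k * ‖H η κ y.1 y.2‖ := by gcongr
      _ = C0 * (‖H η κ y.1 y.2‖ * (((1 + |y.1|) * (1 + |y.2|)) ^ k *
          ((1 + y.1 ^ 2) * (1 + y.2 ^ 2)))) *
          ((1 + y.1 ^ 2)⁻¹ * (1 + y.2 ^ 2)⁻¹) := by
          have e1 : (1 + y.1 ^ 2) ≠ 0 := by positivity
          have e2 : (1 + y.2 ^ 2) ≠ 0 := by positivity
          field_simp
      _ ≤ C0 * C * ((1 + y.1 ^ 2)⁻¹ * (1 + y.2 ^ 2)⁻¹) := by gcongr
      _ = _ := by ring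

/-- the rescaled identity -/
theorem scaled_zero {F : ℝ × ℝ → ℂ} (hF : Continuous F) {C0 : ℝ} {k : ℕ}
    (hb : ∀ y, ‖F y‖ ≤ C0 * (1 + ‖y‖) ^ k)
    (hT : ∀ (R : ℝ) (m κ : ℝ → ℂ), Win R m → Dens κ → T F m κ = 0)
    {R : ℝ} {η κ : ℝ → ℂ} (hη : Win R η) (hκ : Dens κ) {B : ℝ} (hB1 : 1 ≤ B) :
    ∫ y : ℝ × ℝ, F (y.1, y.2 / B) * H η κ y.1 y.2 = 0 := by
  have hB : 0 < B := lt_of_lt_of_le one_pos hB1
  have h1 := hT _ _ κ (hη.scale hB) hκ
  unfold T at h1
  rw [Measure.volume_eq_prod, integral_prod] at h1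
  · rw [Measure.volume_eq_prod, integral_prod]
    · rw [← h1]
      refine integral_congr_ae (Eventually.of_forall fun x => ?_)
      simp only
      have h2 := Measure.integral_comp_mul_left
        (fun s : ℝ => F (x, s / B) * H η κ x s) B
      rw [abs_of_pos (inv_pos.2 hB), Complex.real_smul] at h2
      have h3 : ∫ s : ℝ, F (x, s / B) * H η κ x s =
          (B : ℂ) * ∫ s : ℝ, F (x, B * s / B) * H η κ x (B * s) := by
        rw [h2, Complex.ofReal_inv, ← mul_assoc, mul_inv_cancel₀, one_mul]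
        exact_mod_cast hB.ne'
      rw [h3, ← integral_const_mul]
      refine integral_congr_ae (Eventually.of_forall fun s => ?_)
      simp only
      rw [H_scale η κ hB, mul_div_cancel_left₀ s hB.ne']
      ring
    · refine FH_integrable hF hb hη hκ (a := fun r => r / B) (by fun_prop) fun r => ?_
      rw [abs_div, abs_of_pos hB]
      exact div_le_self (abs_nonneg r) hB1
  · exact FH_integrable hF hb (hη.scale hB) hκ continuous_id fun r => le_rfl

theorem limit_zero {F : ℝ × ℝ → ℂ} (hF : Continuous F) {C0 : ℝ} {k : ℕ}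
    (hb : ∀ y, ‖F y‖ ≤ C0 * (1 + ‖y‖) ^ k)
    (hT : ∀ (R : ℝ) (m κ : ℝ → ℂ), Win R m → Dens κ → T F m κ = 0)
    {R : ℝ} {η κ : ℝ → ℂ} (hη : Win R η) (hκ : Dens κ) :
    ∫ x : ℝ, F (x, 0) * ∫ s : ℝ, H η κ x s = 0 := by
  have hC0 : 0 ≤ C0 := by
    have := hb 0
    simp only [norm_zero, add_zero, one_pow, mul_one] at this
    exact (norm_nonneg _).trans this
  have hlim : Tendsto (fun B : ℝ => ∫ y : ℝ × ℝ, F (y.1, y.2 / B) * H η κ y.1 y.2) atTop
      (𝓝 (∫ y : ℝ × ℝ, F (y.1, 0) * H η κ y.1 y.2)) := by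
    have hdom := FH_integrable (F := fun y => ((C0 * (1 + ‖y‖) ^ k : ℝ) : ℂ))
      (C0 := C0) (k := k) (by fun_prop)
      (fun y => by rw [Complex.norm_real, Real.norm_of_nonneg (by positivity)]) hη hκ
      continuous_id (fun r => le_rfl)
    refine tendsto_integral_filter_of_dominated_convergence
      (fun y => ‖((C0 * (1 + ‖y‖) ^ k : ℝ) : ℂ) * H η κ y.1 y.2‖) ?_ ?_ hdom.norm ?_
    · refine Eventually.of_forall fun B => ?_
      refine Continuous.aestronglyMeasurable ?_
      refine (hF.comp (by fun_prop)).mul ?_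
      exact Hcomp_continuous hη hκ continuous_fst continuous_snd
    · filter_upwards [eventually_ge_atTop 1] with B hB
      refine Eventually.of_forall fun y => ?_
      rw [norm_mul, norm_mul]
      refine mul_le_mul_of_nonneg_right ?_ (norm_nonneg _)
      rw [Complex.norm_real, Real.norm_of_nonneg (by positivity)]
      refine (hb (y.1, y.2 / B)).trans ?_
      have h1 : ‖(y.1, y.2 / B)‖ ≤ ‖y‖ := by
        rw [Prod.norm_def, Prod.norm_def]
        refine max_le_max le_rfl ?_
        simp only [Real.norm_eq_abs]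
        rw [abs_div, abs_of_pos (lt_of_lt_of_le one_pos hB)]
        exact div_le_self (abs_nonneg _) hB
      gcongr
    · refine Eventually.of_forall fun y => ?_
      refine Tendsto.mul_const _ ?_
      have h2 : Tendsto (fun B : ℝ => y.2 / B) atTop (𝓝 0) :=
        tendsto_const_nhds.div_atTop tendsto_id
      have h3 : Continuous (fun r : ℝ => F (y.1, r)) := hF.comp (by fun_prop)
      exact (h3.tendsto 0).comp h2
  have hz : (fun B : ℝ => ∫ y : ℝ × ℝ, F (y.1, y.2 / B) * H η κ y.1 y.2) =ᶠ[atTop]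
      fun _ => (0 : ℂ) := by
    filter_upwards [eventually_ge_atTop 1] with B hB
    exact scaled_zero hF hb hT hη hκ hB
  have h0 : ∫ y : ℝ × ℝ, F (y.1, 0) * H η κ y.1 y.2 = 0 :=
    tendsto_nhds_unique hlim (tendsto_const_nhds.congr' hz.symm)
  rw [Measure.volume_eq_prod, integral_prod] at h0
  · rw [← h0]
    refine integral_congr_ae (Eventually.of_forall fun x => ?_)
    simp only
    rw [integral_const_mul]
  · refine FH_integrable hF hb hη hκ (a := fun _ => 0) continuous_const fun r => ?_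
    rw [abs_zero]
    exact abs_nonneg r

/-- Schwartz decay of the transform of a window -/
theorem Win.fourier_integrable {R : ℝ} {η : ℝ → ℂ} (h : Win R η) : Integrable (𝓕 η : ℝ → ℂ) := by
  let G : SchwartzMap ℝ ℂ := 𝓕 (h.cpt.toSchwartzMap h.smooth)
  have hG : (fun z => G z) = (𝓕 η : ℝ → ℂ) := by
    funext z
    show (𝓕 (h.cpt.toSchwartzMap h.smooth) : SchwartzMap ℝ ℂ) z = _
    rw [SchwartzMap.fourier_coe]
    rfl
  rw [← hG]
  exact G.integrable

theorem Win.fourier_continuous {R : ℝ} {η : ℝ → ℂ} (h : Win R η) : Continuous (𝓕 η : ℝ → ℂ) := by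
  let G : SchwartzMap ℝ ℂ := 𝓕 (h.cpt.toSchwartzMap h.smooth)
  have hG : (fun z => G z) = (𝓕 η : ℝ → ℂ) := by
    funext z
    show (𝓕 (h.cpt.toSchwartzMap h.smooth) : SchwartzMap ℝ ℂ) z = _
    rw [SchwartzMap.fourier_coe]
    rfl
  rw [← hG]
  exact G.continuous

theorem Win.integral_fourier {R : ℝ} {η : ℝ → ℂ} (h : Win R η) : ∫ s : ℝ, 𝓕 η s = η 0 := by
  have h1 := h.integrable.fourierInv_fourier_eq h.fourier_integrable
    (v := 0) h.smooth.continuous.continuousAt
  rw [← h1, Real.fourierInv_eq]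
  simp

theorem char_continuous {X : Type*} [TopologicalSpace X] {a : X → ℝ} (ha : Continuous a) :
    Continuous (fun x => ((𝐞 (a x) : Circle) : ℂ)) := by
  have h1 : Continuous (fun x => 𝐞 (a x)) := Real.continuous_fourierChar.comp ha
  exact continuous_subtype_val.comp h1

theorem fourier_mul_eq (κ : ℝ → ℂ) (w : ℝ) :
    𝓕 κ w = ∫ v : ℝ, ((𝐞 (-(v * w)) : Circle) : ℂ) * κ v := by
  rw [Real.fourier_real_eq]
  rfl

/-- `H` as an iterated transform -/
theorem H_fourier {R : ℝ} {η κ : ℝ → ℂ} (hη : Win R η) (hκ : Dens κ) (p s : ℝ) :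
    H η κ p s = ∫ u : ℝ, ((𝐞 (-(u * p)) : Circle) : ℂ) * (κ u * 𝓕 η (u * s)) := by
  unfold H
  have h1 : ∀ τ : ℝ, η τ * 𝓕 κ (p + τ * s) =
      ∫ u : ℝ, ((𝐞 (-(u * (p + τ * s))) : Circle) : ℂ) * (η τ * κ u) := by
    intro τ
    rw [fourier_mul_eq, ← integral_const_mul]
    refine integral_congr_ae (Eventually.of_forall fun u => ?_)
    simp only
    ring
  simp_rw [h1]
  rw [integral_integral_swap]
  · refine integral_congr_ae (Eventually.of_forall fun u => ?_)
    simp only
    rw [fourier_mul_eq, ← integral_const_mul, ← integral_const_mul]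
    refine integral_congr_ae (Eventually.of_forall fun τ => ?_)
    simp only
    have h2 : ((𝐞 (-(u * (p + τ * s))) : Circle) : ℂ) =
        ((𝐞 (-(u * p)) : Circle) : ℂ) * ((𝐞 (-(τ * (u * s))) : Circle) : ℂ) := by
      rw [← Circle.coe_mul, ← AddChar.map_add_eq_mul]
      congr 2
      ring
    rw [h2]
    ring
  · have h2 : Integrable (fun z : ℝ × ℝ => η z.1 * κ z.2)
        ((volume : Measure ℝ).prod volume) := hη.integrable.mul_prod hκ.integrable
    refine h2.norm.mono' ?_ (Eventually.of_forall fun z => ?_)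
    · refine Continuous.aestronglyMeasurable ?_
      simp only [Function.uncurry_def]
      have hc1 := hη.smooth.continuous
      have hc2 := hκ.smooth.continuous
      refine Continuous.mul ?_ (by fun_prop)
      exact char_continuous (by fun_prop)
    · simp only [Function.uncurry, norm_mul, Circle.norm_coe, one_mul, le_refl]

theorem H_mass {R : ℝ} {η κ κ1 : ℝ → ℂ} (hη : Win R η) (hη1 : η 0 = 1) (hκ : Dens κ)
    (h : ∀ u : ℝ, κ u = u * κ1 u) (hpos : ∀ u : ℝ, κ u ≠ 0 → 0 < u) (hκ1 : Dens κ1) (p : ℝ) :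
    ∫ s : ℝ, H η κ p s = 𝓕 κ1 p := by
  simp_rw [H_fourier hη hκ p]
  obtain ⟨a, b, ha, hab⟩ := hκ.supp
  rw [integral_integral_swap]
  · rw [fourier_mul_eq]
    refine integral_congr_ae (Eventually.of_forall fun u => ?_)
    simp only
    rw [integral_const_mul, integral_const_mul]
    congr 1
    by_cases hu : κ u = 0
    · rcases eq_or_ne u 0 with h0 | h0
      · have h2 : κ1 u = 0 := by
          obtain ⟨a', b', ha', hab'⟩ := hκ1.supp
          by_contra hne
          have := (hab' u hne).1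
          linarith
        rw [hu, h2, zero_mul]
      · rw [hu, zero_mul]
        have h3 := h u
        rw [hu] at h3
        have h4 : (u : ℂ) ≠ 0 := by exact_mod_cast h0
        exact ((mul_eq_zero.1 h3.symm).resolve_left h4).symm
    · have hup := hpos u hu
      have h5 := Measure.integral_comp_mul_left (fun s : ℝ => 𝓕 η s) u
      rw [abs_of_pos (inv_pos.2 hup), Complex.real_smul, hη.integral_fourier, hη1] at h5
      rw [h5, h u, Complex.ofReal_inv]
      have h4 : (u : ℂ) ≠ 0 := by exact_mod_cast hup.ne'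
      field_simp
  · -- integrability
    have h6 : Integrable (fun z : ℝ × ℝ => κ z.2 * 𝓕 η (z.2 * z.1))
        ((volume : Measure ℝ).prod volume) := by
      rw [integrable_prod_iff']
      · refine ⟨Eventually.of_forall fun u => ?_, ?_⟩
        · simp only
          by_cases hu : κ u = 0
          · simp [hu]
          · refine Integrable.const_mul ?_ _
            exact hη.fourier_integrable.comp_mul_left' (hpos u hu).ne'
        · have h7 : ∀ u : ℝ, ∫ s : ℝ, ‖κ u * 𝓕 η (u * s)‖ = ‖κ1 u‖ * ∫ s : ℝ, ‖𝓕 η s‖ := by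
            intro u
            simp_rw [norm_mul]
            rw [integral_const_mul]
            by_cases hu : κ u = 0
            · rcases eq_or_ne u 0 with h0 | h0
              · have h2 : κ1 u = 0 := by
                  obtain ⟨a', b', ha', hab'⟩ := hκ1.supp
                  by_contra hne
                  have := (hab' u hne).1
                  linarith
                simp [hu, h2]
              · have h3 := h u
                rw [hu] at h3
                have h4 : (u : ℂ) ≠ 0 := by exact_mod_cast h0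
                have h5 := (mul_eq_zero.1 h3.symm).resolve_left h4
                simp [hu, h5]
            · have hup := hpos u hu
              have h5 := Measure.integral_comp_mul_left (fun s : ℝ => ‖𝓕 η s‖) u
              rw [abs_of_pos (inv_pos.2 hup), smul_eq_mul] at h5
              rw [h5, h u, norm_mul, Complex.norm_real, Real.norm_of_nonneg hup.le]
              have h8 : u ≠ 0 := hup.ne'
              field_simp
          simp_rw [h7]
          exact hκ1.integrable.norm.mul_const _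
      · refine Continuous.aestronglyMeasurable ?_
        have hc1 := hη.fourier_continuous
        have hc2 := hκ.smooth.continuous
        exact (hc2.comp continuous_snd).mul (hc1.comp (by fun_prop))
    refine h6.norm.mono' ?_ (Eventually.of_forall fun z => ?_)
    · refine Continuous.aestronglyMeasurable ?_
      simp only [Function.uncurry_def]
      have hc1 := hη.fourier_continuous
      have hc2 := hκ.smooth.continuous
      refine Continuous.mul ?_ ((hc2.comp continuous_snd).mul (hc1.comp (by fun_prop)))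
      exact char_continuous (by fun_prop)
    · simp only [Function.uncurry, norm_mul, Circle.norm_coe, one_mul, le_refl]

/-- the restriction to the axis has no positive frequencies -/
theorem axis_zero {F : ℝ × ℝ → ℂ} (hF : Continuous F) {C0 : ℝ} {k : ℕ}
    (hb : ∀ y, ‖F y‖ ≤ C0 * (1 + ‖y‖) ^ k)
    (hT : ∀ (R : ℝ) (m κ : ℝ → ℂ), Win R m → Dens κ → T F m κ = 0)
    {κ1 : ℝ → ℂ} (hκ1 : Dens κ1) : ∫ x : ℝ, F (x, 0) * 𝓕 κ1 x = 0 := by
  obtain ⟨η, hη, hη1⟩ := exists_window_one
  have hκ : Dens (fun u : ℝ => (u : ℂ) * κ1 u) := hκ1.mul Complex.ofRealCLM.contDiff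
  have h1 := limit_zero hF hb hT hη hκ
  have hpos : ∀ u : ℝ, (u : ℂ) * κ1 u ≠ 0 → 0 < u := by
    intro u hu
    obtain ⟨a, b, ha, hab⟩ := hκ1.supp
    exact lt_of_lt_of_le ha (hab u (right_ne_zero_of_mul hu)).1
  simp_rw [H_mass hη hη1 hκ (fun u => rfl) hpos hκ1] at h1
  exact h1

end Pool.Agent.Helper34.Radon
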