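import Pool.Agent.Helper34.Radon.Limit

set_option autoImplicit false

open MeasureTheory Real Complex Filter Topology Set
open scoped FourierTransform ContDiff ENNReal

noncomputable section

namespace Pool.Agent.Helper34.Radon

theorem integral_slope_le (y : ℝ × ℝ) (hy : y.2 ≠ 0) (s : Set ℝ) :
    IntegrableOn (fun τ : ℝ => (1 + (y.1 + τ * y.2) ^ 2)⁻¹) s ∧
    ∫ τ in s, (1 + (y.1 + τ * y.2) ^ 2)⁻¹ ≤ π / |y.2| := by
  have h0 : Integrable (fun x : ℝ => (1 + x ^ 2)⁻¹) := integrable_inv_one_add_sq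
  have h1 : Integrable (fun τ : ℝ => (1 + (y.1 + τ * y.2) ^ 2)⁻¹) := by
    have h2 : Integrable (fun τ : ℝ => (1 + (τ * y.2) ^ 2)⁻¹) := h0.comp_mul_right' hy
    have h3 := h2.comp_add_right (y.1 / y.2)
    refine h3.congr (Eventually.of_forall fun τ => ?_)
    have h4 : (τ + y.1 / y.2) * y.2 = y.1 + τ * y.2 := by
      field_simp
      ring
    simp only [h4]
  refine ⟨h1.integrableOn, ?_⟩
  have h5 : ∫ τ in s, (1 + (y.1 + τ * y.2) ^ 2)⁻¹ ≤ ∫ τ : ℝ, (1 + (y.1 + τ * y.2) ^ 2)⁻¹ := by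
    refine setIntegral_le_integral h1 (Eventually.of_forall fun τ => ?_)
    positivity
  refine h5.trans (le_of_eq ?_)
  have h6 : ∫ τ : ℝ, (1 + (y.1 + τ * y.2) ^ 2)⁻¹ = ∫ τ : ℝ, (1 + (τ * y.2) ^ 2)⁻¹ := by
    rw [← integral_add_right_eq_self (fun τ : ℝ => (1 + (τ * y.2) ^ 2)⁻¹) (y.1 / y.2)]
    refine integral_congr_ae (Eventually.of_forall fun τ => ?_)
    have h4 : (τ + y.1 / y.2) * y.2 = y.1 + τ * y.2 := by
      field_simp
      ring
    simp only [h4]
  rw [h6]
  have h7 := Measure.integral_comp_mul_right (fun x : ℝ => (1 + x ^ 2)⁻¹) y.2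
  rw [h7, integral_univ_inv_one_add_sq, abs_inv, smul_eq_mul, inv_mul_eq_div]

/-- the weight is integrable over slopes close to a direction with cone integrability -/
theorem cone_integrable {g : ℝ × ℝ → ℂ} (hg : Adm g) {t : ℝ} (hB : WB g t) :
    ∃ ε : ℝ, 0 < ε ∧ ∃ k : ℕ, Integrable
      (fun q : ℝ × (ℝ × ℝ) => ‖g q.2‖ / (1 + |q.2.1 + q.1 * q.2.2|) ^ k)
      ((volume.restrict (Ioo (t - ε) (t + ε))).prod volume) := by
  obtain ⟨e0, he0, hcone0⟩ := hB
  obtain ⟨k0, hk0⟩ := hg.tempered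
  -- shrink the cone
  obtain ⟨e, he, he1, hcone⟩ : ∃ e : ℝ, 0 < e ∧ e ≤ 1 / 2 ∧
      IntegrableOn (fun y : ℝ × ℝ => ‖g y‖ / (1 + ‖y‖)) {y : ℝ × ℝ | |y.1 + t * y.2| ≤ e * ‖y‖} := by
    refine ⟨min e0 (1 / 2), lt_min he0 (by norm_num), min_le_right _ _, ?_⟩
    refine hcone0.mono_set fun y hy => ?_
    refine le_trans (show |y.1 + t * y.2| ≤ min e0 (1 / 2) * ‖y‖ from hy) ?_
    exact mul_le_mul_of_nonneg_right (min_le_left _ _) (norm_nonneg _)
  set k : ℕ := max k0 2 with hk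
  refine ⟨e / 2, half_pos he, k, ?_⟩
  set I : Set ℝ := Ioo (t - e / 2) (t + e / 2) with hI
  have hIm : MeasurableSet I := measurableSet_Ioo
  set A : Set (ℝ × ℝ) := {y : ℝ × ℝ | |y.1 + t * y.2| ≤ e * ‖y‖} with hA
  have hAm : MeasurableSet A := by
    refine (isClosed_le ?_ ?_).measurableSet
    · fun_prop
    · fun_prop
  have hmeas : AEStronglyMeasurable
      (fun q : ℝ × (ℝ × ℝ) => ‖g q.2‖ / (1 + |q.2.1 + q.1 * q.2.2|) ^ k)
      ((volume.restrict I).prod volume) := by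
    refine (hg.meas.norm.comp_snd).mul (Continuous.aestronglyMeasurable ?_)
    exact Continuous.inv₀ (by fun_prop) (fun q => by positivity)
  have hvol : (volume.restrict I) Set.univ = ENNReal.ofReal e := by
    rw [Measure.restrict_apply_univ, hI, Real.volume_Ioo]
    congr 1
    ring
  have : IsFiniteMeasure (volume.restrict I) := ⟨by rw [hvol]; exact ENNReal.ofReal_lt_top⟩
  -- slices
  have hslice : ∀ y : ℝ × ℝ, Integrable (fun τ : ℝ => ‖g y‖ / (1 + |y.1 + τ * y.2|) ^ k)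
      (volume.restrict I) := by
    intro y
    refine (integrable_const (‖g y‖)).mono' ?_ (Eventually.of_forall fun τ => ?_)
    · refine Continuous.aestronglyMeasurable ?_
      exact continuous_const.div (by fun_prop) (fun q => by positivity)
    · rw [Real.norm_of_nonneg (by positivity)]
      refine div_le_self (norm_nonneg _) ?_
      exact one_le_pow₀ (by linarith [abs_nonneg (y.1 + τ * y.2)])
  rw [integrable_prod_iff' hmeas]
  refine ⟨Eventually.of_forall hslice, ?_⟩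
  -- the dominating function
  set C : ℝ := 2 * π * (1 + 2 * |t|) + 2 + (2 / e) ^ k with hC
  have hC0 : 0 ≤ C := by positivity
  have hdom : Integrable (fun y : ℝ × ℝ => C * (A.indicator (fun y => ‖g y‖ / (1 + ‖y‖)) y +
      ‖g y‖ / (1 + ‖y‖) ^ k0)) := by
    refine Integrable.const_mul ?_ _
    exact (hcone.integrable_indicator hAm).add hk0
  have hm2 : AEStronglyMeasurable (fun y : ℝ × ℝ => ∫ τ : ℝ,
      ‖‖g y‖ / (1 + |y.1 + τ * y.2|) ^ k‖ ∂(volume.restrict I)) volume := by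
    have := hmeas.norm.prod_swap.integral_prod_right'
    exact this
  refine hdom.mono' hm2 (Eventually.of_forall fun y => ?_)
  have hnn : 0 ≤ ∫ τ : ℝ, ‖‖g y‖ / (1 + |y.1 + τ * y.2|) ^ k‖ ∂(volume.restrict I) :=
    integral_nonneg fun _ => norm_nonneg _
  rw [Real.norm_of_nonneg hnn]
  have hle : ∀ τ : ℝ, ‖‖g y‖ / (1 + |y.1 + τ * y.2|) ^ k‖ =
      ‖g y‖ / (1 + |y.1 + τ * y.2|) ^ k := fun τ => Real.norm_of_nonneg (by positivity)
  simp_rw [hle]
  by_cases hyA : y ∈ A
  · rw [Set.indicator_of_mem hyA]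
    have hyA' : |y.1 + t * y.2| ≤ e * ‖y‖ := hyA
    have hsec : 0 ≤ ‖g y‖ / (1 + ‖y‖) ^ k0 := by positivity
    have hmain : ∫ τ : ℝ, ‖g y‖ / (1 + |y.1 + τ * y.2|) ^ k ∂(volume.restrict I) ≤
        C * (‖g y‖ / (1 + ‖y‖)) := by
      rcases le_or_gt ‖y‖ 1 with hy1 | hy1
      · have h1 : ∫ τ : ℝ, ‖g y‖ / (1 + |y.1 + τ * y.2|) ^ k ∂(volume.restrict I) ≤
            ∫ τ : ℝ, ‖g y‖ ∂(volume.restrict I) := by
          refine integral_mono (hslice y) (integrable_const _) fun τ => ?_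
          refine div_le_self (norm_nonneg _) ?_
          exact one_le_pow₀ (by linarith [abs_nonneg (y.1 + τ * y.2)])
        rw [integral_const, Measure.real, hvol, ENNReal.toReal_ofReal he.le, smul_eq_mul] at h1
        refine h1.trans ?_
        rw [mul_div_assoc', le_div_iff₀ (by positivity)]
        have h2 : e * ‖g y‖ * (1 + ‖y‖) ≤ 1 / 2 * ‖g y‖ * (1 + 1) := by gcongr
        have h3 : (1 : ℝ) ≤ C := by
          have h4 : 0 ≤ 2 * π * (1 + 2 * |t|) := by positivity
          have h5 : 0 ≤ (2 / e) ^ k := by positivity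
          linarith
        have h4 : 1 * ‖g y‖ ≤ C * ‖g y‖ := mul_le_mul_of_nonneg_right h3 (norm_nonneg _)
        linarith
      · -- far away in the cone
        have hn2 : ‖y‖ ≤ (1 + 2 * |t|) * |y.2| := by
          have h1 : |y.1| ≤ |y.1 + t * y.2| + |t| * |y.2| := by
            have := abs_sub (y.1 + t * y.2) (t * y.2)
            rwa [add_sub_cancel_right, abs_mul] at this
          have h2 : |y.1| ≤ 1 / 2 * ‖y‖ + |t| * |y.2| := by
            have h3 : e * ‖y‖ ≤ 1 / 2 * ‖y‖ := mul_le_mul_of_nonneg_right he1 (norm_nonneg _)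
            linarith
          have h4 := mul_nonneg (abs_nonneg t) (abs_nonneg y.2)
          rw [Prod.norm_def, Real.norm_eq_abs, Real.norm_eq_abs] at h2 ⊢
          rcases max_cases |y.1| |y.2| with h | h
          · rw [h.1] at h2 ⊢
            nlinarith [abs_nonneg y.2]
          · rw [h.1]
            nlinarith [abs_nonneg y.2]
        have hy2 : y.2 ≠ 0 := by
          intro h0
          rw [h0, abs_zero, mul_zero] at hn2
          linarith
        have hy2' : 0 < |y.2| := abs_pos.2 hy2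
        obtain ⟨hi1, hi2⟩ := integral_slope_le y hy2 I
        have h1 : ∫ τ : ℝ, ‖g y‖ / (1 + |y.1 + τ * y.2|) ^ k ∂(volume.restrict I) ≤
            ∫ τ in I, ‖g y‖ * (1 + (y.1 + τ * y.2) ^ 2)⁻¹ := by
          refine integral_mono (hslice y) (hi1.const_mul _) fun τ => ?_
          simp only
          rw [div_eq_mul_inv]
          refine mul_le_mul_of_nonneg_left ?_ (norm_nonneg _)
          refine inv_anti₀ (by positivity) ?_
          have h3 : (1 + |y.1 + τ * y.2|) ^ 2 ≤ (1 + |y.1 + τ * y.2|) ^ k :=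
            pow_le_pow_right₀ (by linarith [abs_nonneg (y.1 + τ * y.2)]) (le_max_right _ _)
          refine le_trans ?_ h3
          nlinarith [abs_nonneg (y.1 + τ * y.2), sq_abs (y.1 + τ * y.2)]
        rw [integral_const_mul] at h1
        have h4 : π / |y.2| ≤ 2 * π * (1 + 2 * |t|) / (1 + ‖y‖) := by
          rw [div_le_div_iff₀ hy2' (by positivity)]
          have h5 : 1 + ‖y‖ ≤ 2 * ((1 + 2 * |t|) * |y.2|) := by linarith
          calc π * (1 + ‖y‖) ≤ π * (2 * ((1 + 2 * |t|) * |y.2|)) := by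
                exact mul_le_mul_of_nonneg_left h5 Real.pi_pos.le
            _ = _ := by ring
        have h6 : 2 * π * (1 + 2 * |t|) / (1 + ‖y‖) ≤ C / (1 + ‖y‖) := by
          refine div_le_div_of_nonneg_right ?_ (by positivity)
          have h5 : 0 ≤ (2 / e) ^ k := by positivity
          linarith
        calc ∫ τ : ℝ, ‖g y‖ / (1 + |y.1 + τ * y.2|) ^ k ∂(volume.restrict I)
            ≤ ‖g y‖ * ∫ τ in I, (1 + (y.1 + τ * y.2) ^ 2)⁻¹ := h1
          _ ≤ ‖g y‖ * (C / (1 + ‖y‖)) :=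
              mul_le_mul_of_nonneg_left ((hi2.trans h4).trans h6) (norm_nonneg _)
          _ = _ := by ring
    have := mul_nonneg hC0 hsec
    linarith [mul_add C (‖g y‖ / (1 + ‖y‖)) (‖g y‖ / (1 + ‖y‖) ^ k0)]
  · rw [Set.indicator_of_notMem hyA, zero_add]
    have hyA' : e * ‖y‖ < |y.1 + t * y.2| := not_le.1 hyA
    have h1 : ∫ τ : ℝ, ‖g y‖ / (1 + |y.1 + τ * y.2|) ^ k ∂(volume.restrict I) ≤
        ∫ τ : ℝ, (2 / e) ^ k * (‖g y‖ / (1 + ‖y‖) ^ k) ∂(volume.restrict I) := by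
      refine integral_mono_ae (hslice y) (integrable_const _) ?_
      filter_upwards [ae_restrict_mem hIm] with τ hτ
      have hτ1 : |τ - t| ≤ e / 2 := by
        rw [abs_le]
        constructor
        · linarith [hτ.1]
        · linarith [hτ.2]
      have h2 : e / 2 * ‖y‖ ≤ |y.1 + τ * y.2| := by
        have h3 : |y.1 + t * y.2| ≤ |y.1 + τ * y.2| + |τ - t| * |y.2| := by
          have h4 := abs_sub (y.1 + τ * y.2) ((τ - t) * y.2)
          rw [abs_mul] at h4
          have h5 : y.1 + τ * y.2 - (τ - t) * y.2 = y.1 + t * y.2 := by ring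
          rwa [h5] at h4
        have h6 : |τ - t| * |y.2| ≤ e / 2 * ‖y‖ :=
          mul_le_mul hτ1 (abs_snd_le y) (abs_nonneg _) (by positivity)
        linarith
      have h3 : (e / 2 * (1 + ‖y‖)) ^ k ≤ (1 + |y.1 + τ * y.2|) ^ k := by
        refine pow_le_pow_left₀ (by positivity) ?_ k
        linarith
      have h4 : ‖g y‖ / (1 + |y.1 + τ * y.2|) ^ k ≤ ‖g y‖ / (e / 2 * (1 + ‖y‖)) ^ k :=
        div_le_div_of_nonneg_left (norm_nonneg _) (by positivity) h3
      refine h4.trans (le_of_eq ?_)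
      rw [mul_pow, div_pow, div_pow]
      field_simp
    rw [integral_const, Measure.real, hvol, ENNReal.toReal_ofReal he.le, smul_eq_mul] at h1
    refine h1.trans ?_
    have h5 : ‖g y‖ / (1 + ‖y‖) ^ k ≤ ‖g y‖ / (1 + ‖y‖) ^ k0 := by
      refine div_le_div_of_nonneg_left (norm_nonneg _) (by positivity) ?_
      exact pow_le_pow_right₀ (by linarith [norm_nonneg y]) (le_max_left _ _)
    have h6 : e * ((2 / e) ^ k * (‖g y‖ / (1 + ‖y‖) ^ k)) ≤
        1 * ((2 / e) ^ k * (‖g y‖ / (1 + ‖y‖) ^ k0)) := by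
      gcongr
      linarith
    refine h6.trans ?_
    rw [one_mul]
    refine mul_le_mul_of_nonneg_right ?_ (by positivity)
    have h4 : 0 ≤ 2 * π * (1 + 2 * |t|) := by positivity
    linarith

theorem exists_WA {g : ℝ × ℝ → ℂ} (hg : Adm g) : ∃ t : ℝ, WA g t := by
  rcases hg.alt 0 with h | h
  · exact ⟨0, h⟩
  · obtain ⟨ε, hε, k, hint⟩ := cone_integrable hg h
    have h1 := hint.prod_right_ae
    have h2 : (volume.restrict (Ioo ((0 : ℝ) - ε) (0 + ε))) ≠ 0 := by
      rw [Ne, Measure.restrict_eq_zero, Real.volume_Ioo, ENNReal.ofReal_eq_zero]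
      linarith
    have : NeZero (volume.restrict (Ioo ((0 : ℝ) - ε) (0 + ε))) := ⟨h2⟩
    obtain ⟨τ, hτ⟩ := h1.exists
    exact ⟨τ, k, hτ⟩

end Pool.Agent.Helper34.Radon
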