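import Pool.Agent.Helper34.Radon.Kernel

set_option autoImplicit false

open MeasureTheory Real Complex Filter Topology Set
open scoped FourierTransform ContDiff

noncomputable section

namespace Pool.Agent.Helper34.Radon

/-- smooth window supported in `[-R, R]` -/
structure Win (R : ℝ) (m : ℝ → ℂ) : Prop where
  smooth : ContDiff ℝ ∞ m
  supp : ∀ τ, m τ ≠ 0 → |τ| ≤ R

theorem Win.cpt {R : ℝ} {m : ℝ → ℂ} (h : Win R m) : HasCompactSupport m := by
  refine HasCompactSupport.intro (isCompact_Icc (a := -R) (b := R)) ?_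
  intro u hu
  by_contra hne
  exact hu (abs_le.1 (h.supp u hne))

theorem Win.integrable {R : ℝ} {m : ℝ → ℂ} (h : Win R m) : Integrable m :=
  h.smooth.continuous.integrable_of_hasCompactSupport h.cpt

theorem Win.deriv {R : ℝ} {m : ℝ → ℂ} (h : Win R m) : Win R (deriv m) := by
  refine ⟨?_, ?_⟩
  · have := h.smooth
    rw [contDiff_infty_iff_deriv] at this
    exact this.2
  · intro τ hτ
    have h1 : τ ∈ tsupport (_root_.deriv m) := subset_closure hτ
    have h2 : tsupport m ⊆ {x | |x| ≤ R} := by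
      refine closure_minimal (fun x hx => h.supp x hx) ?_
      exact isClosed_le continuous_abs continuous_const
    exact h2 ((tsupport_deriv_subset (𝕜 := ℝ) (f := m)) h1)

/-- directional superposition of the kernel -/
def H (m κ : ℝ → ℂ) (p s : ℝ) : ℂ := ∫ τ : ℝ, m τ * 𝓕 κ (p + τ * s)

theorem H_integrable {R : ℝ} {m κ : ℝ → ℂ} (hm : Win R m) (hκ : Dens κ) (p s : ℝ) :
    Integrable (fun τ : ℝ => m τ * 𝓕 κ (p + τ * s)) := by
  have : Continuous (fun τ : ℝ => m τ * 𝓕 κ (p + τ * s)) :=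
    hm.smooth.continuous.mul (hκ.continuous.comp (by fun_prop))
  exact this.integrable_of_hasCompactSupport (hm.cpt.mul_right)

theorem H_continuous {R : ℝ} {m κ : ℝ → ℂ} (hm : Win R m) (hκ : Dens κ) :
    Continuous (fun q : ℝ × ℝ => H m κ q.1 q.2) := by
  have h1 : ∀ q : ℝ × ℝ, H m κ q.1 q.2 =
      ∫ τ in Icc (-R) R, m τ * 𝓕 κ (q.1 + τ * q.2) := by
    intro q
    rw [setIntegral_eq_integral_of_forall_compl_eq_zero]
    · rfl
    · intro τ hτ
      have : m τ = 0 := by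
        by_contra hne
        exact hτ (abs_le.1 (hm.supp τ hne))
      simp [this]
  simp_rw [h1]
  refine continuous_parametric_integral_of_continuous ?_ isCompact_Icc
  exact (hm.smooth.continuous.comp continuous_snd).mul (hκ.continuous.comp (by fun_prop))

theorem H_parts {R : ℝ} {m κ κ' : ℝ → ℂ} (hm : Win R m) (hκ : Dens κ) (hκ' : Dens κ')
    (h : κ = fun u : ℝ => (-2 * π * I * u) * κ' u) (p s : ℝ) :
    (s : ℂ) * H m κ p s = - H (_root_.deriv m) κ' p s := by
  unfold H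
  rw [← integral_const_mul]
  have hd : ∀ τ : ℝ, HasDerivAt (fun τ : ℝ => 𝓕 κ' (p + τ * s)) (𝓕 κ (p + τ * s) * s) τ := by
    intro τ
    have h1 := hκ'.hasDerivAt (p + τ * s)
    rw [← h] at h1
    have h2 : HasDerivAt (fun τ : ℝ => p + τ * s) s τ := by
      simpa using ((hasDerivAt_id τ).mul_const s).const_add p
    have h3 := HasDerivAt.scomp τ h1 h2
    simpa [smul_eq_mul, mul_comm, Function.comp_def] using h3
  have hdm : ∀ τ : ℝ, HasDerivAt m (_root_.deriv m τ) τ := fun τ =>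
    ((hm.smooth.differentiable (by simp)) τ).hasDerivAt
  have key := integral_mul_deriv_eq_deriv_mul_of_integrable (u := m)
    (v := fun τ : ℝ => 𝓕 κ' (p + τ * s)) (u' := _root_.deriv m)
    (v' := fun τ : ℝ => 𝓕 κ (p + τ * s) * s) (fun x _ => hdm x) (fun x _ => hd x) ?_ ?_ ?_
  · rw [← key]
    refine integral_congr_ae (Eventually.of_forall fun τ => ?_)
    simp only
    ring
  · have := (H_integrable hm hκ p s).mul_const (s : ℂ)
    refine this.congr (Eventually.of_forall fun τ => ?_)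
    simp only [Pi.mul_apply]
    ring
  · exact H_integrable hm.deriv hκ' p s
  · exact H_integrable hm hκ' p s

theorem one_add_abs_le (R : ℝ) (p s τ : ℝ) (hτ : |τ| ≤ R) :
    1 + |p| ≤ (1 + |p + τ * s|) * ((1 + R) * (1 + |s|)) := by
  have hR : 0 ≤ R := (abs_nonneg τ).trans hτ
  have h1 : |p| ≤ |p + τ * s| + |τ| * |s| := by
    have := abs_sub (p + τ * s) (τ * s)
    rw [add_sub_cancel_right, abs_mul] at this
    exact this
  have h2 : |τ| * |s| ≤ R * |s| := mul_le_mul_of_nonneg_right hτ (abs_nonneg s)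
  have h3 := abs_nonneg (p + τ * s)
  have h4 := abs_nonneg s
  nlinarith [mul_nonneg h3 h4, mul_nonneg h3 hR, mul_nonneg (mul_nonneg h3 h4) hR]

theorem H_bound_aux (k : ℕ) (R : ℝ) (N : ℕ) : ∀ m κ : ℝ → ℂ, Win R m → Dens κ →
    ∃ C : ℝ, 0 ≤ C ∧ ∀ p s : ℝ,
      ‖H m κ p s‖ * (1 + |p|) ^ k * (1 + |s|) ^ N ≤ C * (1 + |s|) ^ k := by
  induction N with
  | zero =>
    intro m κ hm hκ
    obtain ⟨C, hC0, hC⟩ := hκ.decay k
    refine ⟨(∫ τ, ‖m τ‖) * (C * (1 + R) ^ k), ?_, ?_⟩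
    · by_cases hR : 0 ≤ 1 + R
      · have : 0 ≤ ∫ τ, ‖m τ‖ := integral_nonneg fun _ => norm_nonneg _
        positivity
      · have : ∀ τ, m τ = 0 := by
          intro τ
          by_contra hne
          have := (abs_nonneg τ).trans (hm.supp τ hne)
          linarith
        simp [this]
    intro p s
    rw [pow_zero, mul_one]
    have h1 : ‖H m κ p s‖ ≤ ∫ τ, ‖m τ * 𝓕 κ (p + τ * s)‖ := norm_integral_le_integral_norm _
    have h2 : (∫ τ, ‖m τ * 𝓕 κ (p + τ * s)‖) * (1 + |p|) ^ k ≤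
        ∫ τ, ‖m τ‖ * (C * (1 + R) ^ k * (1 + |s|) ^ k) := by
      rw [← integral_mul_const]
      refine integral_mono ?_ ?_ ?_
      · exact ((H_integrable hm hκ p s).norm).mul_const _
      · exact hm.integrable.norm.mul_const _
      · intro τ
        simp only
        by_cases hτ0 : m τ = 0
        · simp [hτ0]
        have hτ := hm.supp τ hτ0
        have hR : 0 ≤ R := (abs_nonneg τ).trans hτ
        have h3 := one_add_abs_le R p s τ hτ
        have h4 : (1 + |p|) ^ k ≤ ((1 + |p + τ * s|) * ((1 + R) * (1 + |s|))) ^ k :=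
          pow_le_pow_left₀ (by positivity) h3 k
        rw [norm_mul, mul_assoc]
        refine mul_le_mul_of_nonneg_left ?_ (norm_nonneg _)
        calc ‖𝓕 κ (p + τ * s)‖ * (1 + |p|) ^ k
            ≤ ‖𝓕 κ (p + τ * s)‖ * ((1 + |p + τ * s|) * ((1 + R) * (1 + |s|))) ^ k :=
              mul_le_mul_of_nonneg_left h4 (norm_nonneg _)
          _ = (‖𝓕 κ (p + τ * s)‖ * (1 + |p + τ * s|) ^ k) * ((1 + R) ^ k * (1 + |s|) ^ k) := by
              rw [mul_pow, mul_pow]; ring
          _ ≤ C * ((1 + R) ^ k * (1 + |s|) ^ k) :=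
              mul_le_mul_of_nonneg_right (hC _) (by positivity)
          _ = C * (1 + R) ^ k * (1 + |s|) ^ k := by ring
    calc ‖H m κ p s‖ * (1 + |p|) ^ k ≤ (∫ τ, ‖m τ * 𝓕 κ (p + τ * s)‖) * (1 + |p|) ^ k :=
          mul_le_mul_of_nonneg_right h1 (by positivity)
      _ ≤ _ := h2
      _ = _ := by rw [integral_mul_const]; ring
  | succ N ih =>
    intro m κ hm hκ
    obtain ⟨κ', hκ', he⟩ := hκ.anti
    obtain ⟨C1, h10, h1⟩ := ih m κ hm hκ
    obtain ⟨C2, h20, h2⟩ := ih _ κ' hm.deriv hκ'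
    refine ⟨C1 + C2, add_nonneg h10 h20, fun p s => ?_⟩
    have h3 : |s| * ‖H m κ p s‖ = ‖H (_root_.deriv m) κ' p s‖ := by
      have := congrArg norm (H_parts hm hκ hκ' he p s)
      rwa [norm_mul, norm_neg, Complex.norm_real, Real.norm_eq_abs] at this
    calc ‖H m κ p s‖ * (1 + |p|) ^ k * (1 + |s|) ^ (N + 1)
        = ‖H m κ p s‖ * (1 + |p|) ^ k * (1 + |s|) ^ N +
          (|s| * ‖H m κ p s‖) * (1 + |p|) ^ k * (1 + |s|) ^ N := by ring
      _ = ‖H m κ p s‖ * (1 + |p|) ^ k * (1 + |s|) ^ N +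
          ‖H (_root_.deriv m) κ' p s‖ * (1 + |p|) ^ k * (1 + |s|) ^ N := by rw [h3]
      _ ≤ C1 * (1 + |s|) ^ k + C2 * (1 + |s|) ^ k := add_le_add (h1 p s) (h2 p s)
      _ = _ := by ring

/-- rapid decay of `H` in both variables -/
theorem H_bound {R : ℝ} {m κ : ℝ → ℂ} (hm : Win R m) (hκ : Dens κ) (k N : ℕ) :
    ∃ C : ℝ, 0 ≤ C ∧ ∀ p s : ℝ, ‖H m κ p s‖ * (1 + |p|) ^ k * (1 + |s|) ^ N ≤ C := by
  obtain ⟨C, h0, h⟩ := H_bound_aux k R (N + k) m κ hm hκ
  refine ⟨C, h0, fun p s => ?_⟩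
  have h1 := h p s
  have h2 : 0 < (1 + |s|) ^ k := by positivity
  rw [pow_add, ← mul_assoc] at h1
  exact le_of_mul_le_mul_right h1 h2

end Pool.Agent.Helper34.Radon
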