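import Mathlib

/-! Kernels with spectrum in a compact interval of positive frequencies, used for the
injectivity of the Radon transform. -/

set_option autoImplicit false

open MeasureTheory Real Complex Filter Topology Set
open scoped FourierTransform ContDiff

noncomputable section

namespace Pool.Agent.Helper34.Radon

/-- smooth spectral densities supported in a compact interval of positive reals -/
structure Dens (κ : ℝ → ℂ) : Prop where
  smooth : ContDiff ℝ ∞ κ
  supp : ∃ a b : ℝ, 0 < a ∧ ∀ u, κ u ≠ 0 → a ≤ u ∧ u ≤ b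

theorem Dens.cpt {κ : ℝ → ℂ} (h : Dens κ) : HasCompactSupport κ := by
  obtain ⟨a, b, -, hab⟩ := h.supp
  refine HasCompactSupport.intro (isCompact_Icc (a := a) (b := b)) ?_
  intro u hu
  by_contra hne
  exact hu (hab u hne)

theorem Dens.mul {κ : ℝ → ℂ} (h : Dens κ) {g : ℝ → ℂ} (hg : ContDiff ℝ ∞ g) :
    Dens (fun u => g u * κ u) := by
  obtain ⟨a, b, ha, hab⟩ := h.supp
  exact ⟨hg.mul h.smooth, a, b, ha, fun u hu => hab u (right_ne_zero_of_mul hu)⟩

/-- division by the frequency -/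
theorem Dens.anti {κ : ℝ → ℂ} (h : Dens κ) :
    ∃ κ' : ℝ → ℂ, Dens κ' ∧ κ = fun u : ℝ => (-2 * π * I * u) * κ' u := by
  obtain ⟨a, b, ha, hab⟩ := h.supp
  refine ⟨fun u => κ u / (-2 * π * I * u), ⟨?_, a, b, ha, ?_⟩, ?_⟩
  · rw [contDiff_iff_contDiffAt]
    intro u
    rcases lt_or_ge u a with hu | hu
    · have : (fun u : ℝ => κ u / (-2 * π * I * u)) =ᶠ[𝓝 u] fun _ => (0 : ℂ) := by
        filter_upwards [Iio_mem_nhds hu] with v hv
        have : κ v = 0 := by
          by_contra hne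
          exact absurd (hab v hne).1 (not_le.2 hv)
        simp [this]
      exact contDiffAt_const.congr_of_eventuallyEq this
    · have hu0 : (u : ℂ) ≠ 0 := by
        exact_mod_cast (lt_of_lt_of_le ha hu).ne'
      simp only [div_eq_mul_inv]
      refine ContDiffAt.mul h.smooth.contDiffAt (ContDiffAt.inv ?_ ?_)
      · exact contDiffAt_const.mul (Complex.ofRealCLM.contDiff.contDiffAt)
      · simp only [ne_eq, mul_eq_zero, not_or]
        refine ⟨⟨⟨by norm_num, by exact_mod_cast Real.pi_ne_zero⟩, Complex.I_ne_zero⟩, hu0⟩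
  · intro u hu
    exact hab u (fun h0 => hu (by simp [h0]))
  · funext u
    by_cases hu : κ u = 0
    · simp [hu]
    · have hu1 := (hab u hu).1
      have hu0 : (u : ℂ) ≠ 0 := by
        exact_mod_cast (lt_of_lt_of_le ha hu1).ne'
      have hpi : (π : ℂ) ≠ 0 := by exact_mod_cast Real.pi_ne_zero
      have hI := Complex.I_ne_zero
      field_simp

theorem Dens.integrable {κ : ℝ → ℂ} (h : Dens κ) : Integrable κ :=
  h.smooth.continuous.integrable_of_hasCompactSupport h.cpt

/-- rapid decay of the kernels -/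
theorem Dens.decay {κ : ℝ → ℂ} (h : Dens κ) (k : ℕ) :
    ∃ C : ℝ, 0 ≤ C ∧ ∀ z : ℝ, ‖𝓕 κ z‖ * (1 + |z|) ^ k ≤ C := by
  let F : SchwartzMap ℝ ℂ := 𝓕 (h.cpt.toSchwartzMap h.smooth)
  have hF : ∀ z, F z = 𝓕 κ z := by
    intro z
    show (𝓕 (h.cpt.toSchwartzMap h.smooth) : SchwartzMap ℝ ℂ) z = _
    rw [SchwartzMap.fourier_coe]
    rfl
  refine ⟨2 ^ k * (Finset.Iic (k, 0)).sup (fun m => SchwartzMap.seminorm ℝ m.1 m.2) F,
    by positivity, fun z => ?_⟩
  have := SchwartzMap.one_add_le_sup_seminorm_apply (𝕜 := ℝ) (m := (k, 0)) (k := k) (n := 0)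
      le_rfl le_rfl F z
  rw [norm_iteratedFDeriv_zero, hF z, Real.norm_eq_abs, mul_comm] at this
  exact this

theorem Dens.hasDerivAt {κ : ℝ → ℂ} (h : Dens κ) (z : ℝ) :
    HasDerivAt (𝓕 κ) (𝓕 (fun u : ℝ => (-2 * π * I * u) * κ u) z) z := by
  have h1 : Integrable (fun u : ℝ => (u : ℝ) • κ u) := by
    have : Continuous (fun u : ℝ => (u : ℝ) • κ u) := continuous_id.smul h.smooth.continuous
    refine this.integrable_of_hasCompactSupport ?_
    exact h.cpt.smul_left (f := fun u : ℝ => (u : ℝ))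
  have := Real.hasDerivAt_fourier h.integrable h1 z
  simpa [smul_eq_mul] using this

theorem Dens.continuous {κ : ℝ → ℂ} (h : Dens κ) : Continuous (𝓕 κ : ℝ → ℂ) := by
  rw [continuous_iff_continuousAt]
  exact fun z => (h.hasDerivAt z).continuousAt

end Pool.Agent.Helper34.Radon
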