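import Pool.Agent.Helper34.Radon.Window

set_option autoImplicit false

open MeasureTheory Real Complex Filter Topology Set
open scoped FourierTransform ContDiff

noncomputable section

namespace Pool.Agent.Helper34.Radon

/-- the shear `(p, s) ↦ (p - t s, s)` preserves the measure -/
theorem shear_mp (t : ℝ) : MeasurePreserving (fun q : ℝ × ℝ => (q.1 - t * q.2, q.2))
    (volume : Measure (ℝ × ℝ)) volume := by
  have h1 : MeasurePreserving (fun q : ℝ × ℝ => (q.1, q.2 - t * q.1))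
      ((volume : Measure ℝ).prod volume) ((volume : Measure ℝ).prod volume) := by
    refine MeasurePreserving.skew_product (f := fun x : ℝ => x)
      (g := fun x y : ℝ => y - t * x) (MeasurePreserving.id _) ?_ ?_
    · fun_prop
    · refine Eventually.of_forall fun x => ?_
      exact (measurePreserving_sub_right (volume : Measure ℝ) (t * x)).map_eq
  have h2 : MeasurePreserving (Prod.swap : ℝ × ℝ → ℝ × ℝ)
      ((volume : Measure ℝ).prod volume) ((volume : Measure ℝ).prod volume) :=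
    Measure.measurePreserving_swap
  exact (h2.comp (h1.comp h2))

theorem shear_emb (t : ℝ) : MeasurableEmbedding (fun q : ℝ × ℝ => (q.1 - t * q.2, q.2)) := by
  have h : Continuous (fun q : ℝ × ℝ => (q.1 - t * q.2, q.2)) := by fun_prop
  refine h.measurableEmbedding ?_
  intro a b hab
  simp only [Prod.mk.injEq] at hab
  obtain ⟨h1, h2⟩ := hab
  rw [h2] at h1
  exact Prod.ext (by linarith) h2

theorem H_zero (μ κ : ℝ → ℂ) (p : ℝ) : H μ κ p 0 = (∫ σ, μ σ) * 𝓕 κ p := by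
  unfold H
  simp [integral_mul_const]

/-- the pairing with a plane wave packet in direction `t` vanishes -/
theorem plane_zero {g : ℝ × ℝ → ℂ} (hg : Adm g) {κ : ℝ → ℂ} (hκ : Dens κ) {t : ℝ}
    (hA : WA g t) : ∫ y : ℝ × ℝ, g y * 𝓕 κ (y.1 + t * y.2) = 0 := by
  obtain ⟨k, hk⟩ := hA
  obtain ⟨C, h0, hC⟩ := hκ.decay k
  have hint : Integrable (fun y : ℝ × ℝ => g y * 𝓕 κ (y.1 + t * y.2)) := by
    refine (hk.const_mul C).mono' ?_ (Eventually.of_forall fun y => ?_)
    · refine hg.meas.mul (Continuous.aestronglyMeasurable ?_)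
      exact hκ.continuous.comp (by fun_prop)
    · rw [norm_mul, mul_div_assoc', mul_comm C, le_div_iff₀ (by positivity), mul_assoc]
      exact mul_le_mul_of_nonneg_left (hC _) (norm_nonneg _)
  have h1 : ∫ y : ℝ × ℝ, g y * 𝓕 κ (y.1 + t * y.2) =
      ∫ q : ℝ × ℝ, g (q.1 - t * q.2, q.2) * 𝓕 κ q.1 := by
    rw [← (shear_mp t).integral_comp (shear_emb t)]
    refine integral_congr_ae (Eventually.of_forall fun q => ?_)
    have h2 : q.1 - t * q.2 + t * q.2 = q.1 := by ring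
    simp only [h2]
  have hint2 : Integrable (fun q : ℝ × ℝ => g (q.1 - t * q.2, q.2) * 𝓕 κ q.1)
      ((volume : Measure ℝ).prod volume) := by
    have := ((shear_mp t).integrable_comp_emb (shear_emb t)).2 hint
    refine this.congr (Eventually.of_forall fun q => ?_)
    have h2 : q.1 - t * q.2 + t * q.2 = q.1 := by ring
    simp only [Function.comp_def, h2]
  rw [h1, Measure.volume_eq_prod, integral_prod _ hint2]
  have h2 : ∀ᵐ p : ℝ, ∫ s : ℝ, g (p - t * s, s) * 𝓕 κ p = 0 := by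
    filter_upwards [hg.zero t] with p hp
    rw [integral_mul_const, hp, zero_mul]
  rw [integral_congr_ae h2]
  simp

/-- pointwise convergence of the windows to zero -/
theorem Phi_tendsto {g : ℝ × ℝ → ℂ} (hg : Adm g) {R : ℝ} {μ κ : ℝ → ℂ} (hμ : Win R μ)
    (hκ : Dens κ) {t : ℝ} (hA : WA g t) :
    Tendsto (fun S : ℝ => Phi g μ κ S t) atTop (𝓝 0) := by
  have hA' := hA
  obtain ⟨k, hk⟩ := hA
  obtain ⟨C, h0, hC⟩ := H_bound hμ hκ k 0
  have hlim : (0 : ℂ) = ∫ y : ℝ × ℝ, g y * H μ κ (y.1 + t * y.2) 0 := by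
    have h1 : ∀ y : ℝ × ℝ, g y * H μ κ (y.1 + t * y.2) 0 =
        (∫ σ, μ σ) * (g y * 𝓕 κ (y.1 + t * y.2)) := by
      intro y
      rw [H_zero]
      ring
    simp_rw [h1]
    rw [integral_const_mul, plane_zero hg hκ hA', mul_zero]
  rw [hlim]
  unfold Phi
  refine tendsto_integral_filter_of_dominated_convergence
    (fun y => C * (‖g y‖ / (1 + |y.1 + t * y.2|) ^ k)) ?_ ?_ (hk.const_mul C) ?_
  · refine Eventually.of_forall fun S => ?_
    refine hg.meas.mul (Continuous.aestronglyMeasurable ?_)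
    exact Hcomp_continuous hμ hκ (by fun_prop) (by fun_prop)
  · refine Eventually.of_forall fun S => Eventually.of_forall fun y => ?_
    rw [norm_mul, mul_div_assoc', mul_comm C, le_div_iff₀ (by positivity), mul_assoc]
    refine mul_le_mul_of_nonneg_left ?_ (norm_nonneg _)
    simpa using hC (y.1 + t * y.2) (y.2 / S)
  · refine Eventually.of_forall fun y => ?_
    refine Tendsto.const_mul _ ?_
    have h2 : Tendsto (fun S : ℝ => y.2 / S) atTop (𝓝 0) :=
      tendsto_const_nhds.div_atTop tendsto_id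
    have h3 : Continuous (fun r : ℝ => H μ κ (y.1 + t * y.2) r) :=
      Hcomp_continuous hμ hκ continuous_const continuous_id
    exact (h3.tendsto 0).comp h2

/-- uniform bound for the windows close to a direction with a controlled weight -/
theorem Phi_bound {g : ℝ × ℝ → ℂ} {R : ℝ} {μ κ : ℝ → ℂ} (hμ : Win R μ)
    (hκ : Dens κ) (n : ℕ) : ∃ C : ℝ, 0 ≤ C ∧ ∀ S : ℝ, 0 < S → ∀ t t0 : ℝ, |t - t0| ≤ 1 / S →
      Integrable (fun y : ℝ × ℝ => ‖g y‖ / (1 + |y.1 + t0 * y.2|) ^ n) →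
      ‖Phi g μ κ S t‖ ≤ C * ∫ y : ℝ × ℝ, ‖g y‖ / (1 + |y.1 + t0 * y.2|) ^ n := by
  obtain ⟨C, h0, hC⟩ := H_bound hμ hκ n n
  refine ⟨C, h0, fun S hS t t0 ht hint => ?_⟩
  unfold Phi
  rw [← integral_const_mul]
  refine norm_integral_le_of_norm_le (hint.const_mul C) (Eventually.of_forall fun y => ?_)
  rw [norm_mul, mul_div_assoc', mul_comm C, le_div_iff₀ (by positivity), mul_assoc]
  refine mul_le_mul_of_nonneg_left ?_ (norm_nonneg _)
  have h1 : 1 + |y.1 + t0 * y.2| ≤ (1 + |y.1 + t * y.2|) * (1 + |y.2 / S|) := by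
    have h2 : |y.1 + t0 * y.2| ≤ |y.1 + t * y.2| + |t - t0| * |y.2| := by
      have h3 := abs_sub (y.1 + t * y.2) ((t - t0) * y.2)
      rw [abs_mul] at h3
      have h4 : y.1 + t * y.2 - (t - t0) * y.2 = y.1 + t0 * y.2 := by ring
      rwa [h4] at h3
    have h5 : |t - t0| * |y.2| ≤ |y.2 / S| := by
      rw [abs_div, abs_of_pos hS]
      calc |t - t0| * |y.2| ≤ 1 / S * |y.2| := by gcongr
        _ = |y.2| / S := by ring
    nlinarith [abs_nonneg (y.1 + t * y.2), abs_nonneg (y.2 / S),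
      mul_nonneg (abs_nonneg (y.1 + t * y.2)) (abs_nonneg (y.2 / S))]
  calc ‖H μ κ (y.1 + t * y.2) (y.2 / S)‖ * (1 + |y.1 + t0 * y.2|) ^ n
      ≤ ‖H μ κ (y.1 + t * y.2) (y.2 / S)‖ *
        ((1 + |y.1 + t * y.2|) * (1 + |y.2 / S|)) ^ n := by gcongr
    _ = ‖H μ κ (y.1 + t * y.2) (y.2 / S)‖ * (1 + |y.1 + t * y.2|) ^ n *
        (1 + |y.2 / S|) ^ n := by rw [mul_pow]; ring
    _ ≤ C := hC _ _

/-- window identity -/
theorem T_window (g : ℝ × ℝ → ℂ) (μ κ : ℝ → ℂ) {S : ℝ} (hS : 0 < S) (t : ℝ) :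
    T g (fun τ => μ (S * (τ - t))) κ = (S : ℂ)⁻¹ * Phi g μ κ S t := by
  unfold T Phi
  rw [← integral_const_mul]
  refine integral_congr_ae (Eventually.of_forall fun y => ?_)
  simp only
  have h1 : H (fun τ => μ (S * (τ - t))) κ y.1 y.2 =
      (S : ℂ)⁻¹ * H μ κ (y.1 + t * y.2) (y.2 / S) := by
    unfold H
    have h2 : ∫ τ : ℝ, μ (S * (τ - t)) * 𝓕 κ (y.1 + τ * y.2) =
        ∫ τ : ℝ, (fun σ : ℝ => μ σ * 𝓕 κ (y.1 + t * y.2 + σ * (y.2 / S))) (S * (τ - t)) := by
      refine integral_congr_ae (Eventually.of_forall fun τ => ?_)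
      have h3 : y.1 + t * y.2 + S * (τ - t) * (y.2 / S) = y.1 + τ * y.2 := by
        field_simp
        ring
      simp only [h3]
    rw [h2, integral_sub_right_eq_self (fun τ : ℝ =>
      (fun σ : ℝ => μ σ * 𝓕 κ (y.1 + t * y.2 + σ * (y.2 / S))) (S * τ)) t]
    have h4 := Measure.integral_comp_mul_left
      (fun σ : ℝ => μ σ * 𝓕 κ (y.1 + t * y.2 + σ * (y.2 / S))) S
    rw [abs_of_pos (inv_pos.2 hS), Complex.real_smul, Complex.ofReal_inv] at h4
    exact h4
  rw [h1]
  ring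

/-- continuity in the slope -/
theorem Phi_continuous {g : ℝ × ℝ → ℂ} (hg : Adm g) {R : ℝ} {μ κ : ℝ → ℂ} (hμ : Win R μ)
    (hκ : Dens κ) {S : ℝ} (hS : 0 < S) : Continuous (fun t => Phi g μ κ S t) := by
  obtain ⟨k, hk⟩ := hg.tempered
  obtain ⟨C, h0, hC⟩ := Hwin_bound hμ hκ k
  rw [continuous_iff_continuousAt]
  intro t0
  unfold Phi
  refine tendsto_integral_filter_of_dominated_convergence
    (fun y => (C * ((1 + (|t0| + 1)) * (1 + S) ^ 2) ^ k) * (‖g y‖ / (1 + ‖y‖) ^ k)) ?_ ?_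
    (hk.const_mul _) ?_
  · refine Eventually.of_forall fun t => ?_
    refine hg.meas.mul (Continuous.aestronglyMeasurable ?_)
    exact Hcomp_continuous hμ hκ (by fun_prop) (by fun_prop)
  · filter_upwards [Metric.ball_mem_nhds t0 one_pos] with t ht
    refine Eventually.of_forall fun y => ?_
    rw [Metric.mem_ball, Real.dist_eq] at ht
    have h1 : |t| ≤ |t0| + 1 := by
      have := abs_sub_abs_le_abs_sub t t0
      linarith
    rw [norm_mul]
    calc ‖g y‖ * ‖H μ κ (y.1 + t * y.2) (y.2 / S)‖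
        ≤ ‖g y‖ * (C * ((1 + |t|) * (1 + S) ^ 2) ^ k / (1 + ‖y‖) ^ k) := by
          gcongr
          exact hC S hS t y
      _ ≤ ‖g y‖ * (C * ((1 + (|t0| + 1)) * (1 + S) ^ 2) ^ k / (1 + ‖y‖) ^ k) := by gcongr
      _ = _ := by ring
  · refine Eventually.of_forall fun y => ?_
    refine Tendsto.const_mul _ ?_
    have h3 : Continuous (fun t : ℝ => H μ κ (y.1 + t * y.2) (y.2 / S)) :=
      Hcomp_continuous hμ hκ (by fun_prop) continuous_const
    exact h3.tendsto t0

end Pool.Agent.Helper34.Radon
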