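import Pool.Agent.Helper34.Radon.Moll

set_option autoImplicit false

open MeasureTheory Real Complex Filter Topology Set
open scoped FourierTransform ContDiff ENNReal

noncomputable section

namespace Pool.Agent.Helper34.Radon

theorem Fr_axis {f : ℝ × ℝ → ℝ} (h : Slope f)
    (hor : ∃ k : ℕ, Integrable (fun x : ℝ × ℝ => f x / (1 + |x.2|) ^ k))
    {φ : ℝ × ℝ → ℝ} (hφ : Continuous φ) (hc : HasCompactSupport φ) :
    Integrable (fun x : ℝ => Fr f φ (x, 0)) := by
  obtain ⟨k, hk⟩ := hor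
  obtain ⟨M, hM0, hM⟩ := weight_bound hφ hc (k + 2)
  have hmeas := h.meas
  rw [Measure.volume_eq_prod] at hk
  -- the integrand on the product
  have hint : Integrable (fun q : ℝ × (ℝ × ℝ) => f ((q.1, 0) + q.2) * φ q.2)
      ((volume : Measure ℝ).prod (volume : Measure (ℝ × ℝ))) := by
    have hqm : AEStronglyMeasurable (fun q : ℝ × (ℝ × ℝ) => f ((q.1, 0) + q.2))
        ((volume : Measure ℝ).prod (volume : Measure (ℝ × ℝ))) := by
      have hmp : Measure.QuasiMeasurePreserving (fun q : ℝ × (ℝ × ℝ) => (q.1, (0 : ℝ)) + q.2)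
          ((volume : Measure ℝ).prod (volume : Measure (ℝ × ℝ))) volume := by
        refine ⟨by fun_prop, ?_⟩
        refine Measure.AbsolutelyContinuous.mk fun s hs hs0 => ?_
        rw [Measure.map_apply (by fun_prop) hs,
          Measure.prod_apply (hs.preimage (by fun_prop))]
        have h1 : ∀ x : ℝ, volume (Prod.mk x ⁻¹' ((fun q : ℝ × (ℝ × ℝ) =>
            (q.1, (0 : ℝ)) + q.2) ⁻¹' s)) = 0 := by
          intro x
          have h2 : Prod.mk x ⁻¹' ((fun q : ℝ × (ℝ × ℝ) => (q.1, (0 : ℝ)) + q.2) ⁻¹' s) =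
              (fun z : ℝ × ℝ => (x, (0 : ℝ)) + z) ⁻¹' s := rfl
          rw [h2, measure_preimage_add]
          exact hs0
        simp_rw [h1]
        simp
      exact hmeas.comp_quasiMeasurePreserving hmp
    have hm2 : AEStronglyMeasurable (fun q : ℝ × (ℝ × ℝ) => f ((q.1, 0) + q.2) * φ q.2)
        ((volume : Measure ℝ).prod (volume : Measure (ℝ × ℝ))) :=
      hqm.mul (hφ.comp continuous_snd).aestronglyMeasurable
    rw [integrable_prod_iff' hm2]
    have hsl : ∀ᵐ b : ℝ, Integrable (fun x : ℝ => f (x, b)) := by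
      filter_upwards [hk.prod_left_ae] with b hb
      have h1 := hb.mul_const ((1 + |b|) ^ k)
      refine h1.congr (Eventually.of_forall fun x => ?_)
      have : (1 + |b|) ^ k ≠ 0 := by positivity
      simp only
      field_simp
    have hsl2 : ∀ᵐ z : ℝ × ℝ, Integrable (fun x : ℝ => f (x, z.2)) := by
      rw [Measure.volume_eq_prod]
      exact Measure.quasiMeasurePreserving_snd.ae hsl
    refine ⟨?_, ?_⟩
    · filter_upwards [hsl2] with z hz
      have h1 := (hz.comp_add_right z.1).mul_const (φ z)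
      refine h1.congr (Eventually.of_forall fun x => ?_)
      simp only
      congr 2
      refine Prod.ext ?_ ?_
      · simp
      · simp
    · have hN : Integrable (fun b : ℝ => ∫ x : ℝ, ‖f (x, b) / (1 + |b|) ^ k‖) :=
        hk.norm.integral_prod_right
      have hi : Integrable (fun x : ℝ => (1 + x ^ 2)⁻¹) := integrable_inv_one_add_sq
      have hdom : Integrable (fun z : ℝ × ℝ => ((1 + z.1 ^ 2)⁻¹ * M) *
          ∫ x : ℝ, ‖f (x, z.2) / (1 + |z.2|) ^ k‖) (volume : Measure (ℝ × ℝ)) :=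
        (hi.mul_const M).mul_prod hN
      refine hdom.mono' hm2.norm.prod_swap.integral_prod_right' (Eventually.of_forall fun z => ?_)
      rw [Real.norm_of_nonneg (integral_nonneg fun _ => norm_nonneg _)]
      have h1 : ∫ x : ℝ, ‖f ((x, 0) + z) * φ z‖ = (∫ x : ℝ, ‖f (x, z.2)‖) * |φ z| := by
        rw [← integral_add_right_eq_self (fun x : ℝ => ‖f (x, z.2)‖) z.1, ← integral_mul_const]
        refine integral_congr_ae (Eventually.of_forall fun x => ?_)
        simp only [norm_mul, Real.norm_eq_abs (φ z)]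
        congr 3
        refine Prod.ext ?_ ?_
        · simp
        · simp
      have h2 : ∫ x : ℝ, ‖f (x, z.2) / (1 + |z.2|) ^ k‖ =
          (∫ x : ℝ, ‖f (x, z.2)‖) / (1 + |z.2|) ^ k := by
        rw [← integral_div]
        refine integral_congr_ae (Eventually.of_forall fun x => ?_)
        simp only
        rw [norm_div, Real.norm_of_nonneg (show (0 : ℝ) ≤ (1 + |z.2|) ^ k by positivity)]
      rw [h1, h2]
      have h3 := hM z
      have h4 : |φ z| * ((1 + |z.2|) ^ k * (1 + z.1 ^ 2)) ≤ M := by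
        refine le_trans ?_ h3
        have f1 := abs_fst_le z
        have f2 := abs_snd_le z
        have f3 : 1 + z.1 ^ 2 ≤ (1 + ‖z‖) ^ 2 := by
          nlinarith [abs_nonneg z.1, sq_abs z.1, norm_nonneg z]
        calc |φ z| * ((1 + |z.2|) ^ k * (1 + z.1 ^ 2))
            ≤ |φ z| * ((1 + ‖z‖) ^ k * (1 + ‖z‖) ^ 2) := by gcongr
          _ = _ := by rw [pow_add]; ring
      have hI0 : 0 ≤ ∫ x : ℝ, ‖f (x, z.2)‖ := integral_nonneg fun _ => norm_nonneg _
      have hrw : (1 + z.1 ^ 2)⁻¹ * M * ((∫ x : ℝ, ‖f (x, z.2)‖) / (1 + |z.2|) ^ k) =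
          (∫ x : ℝ, ‖f (x, z.2)‖) * (M / ((1 + |z.2|) ^ k * (1 + z.1 ^ 2))) := by
        field_simp
      rw [hrw]
      refine mul_le_mul_of_nonneg_left ?_ hI0
      rw [le_div_iff₀ (by positivity)]
      exact h4
  exact hint.integral_prod_left

/-- the theorem in slope form -/
theorem slope_main {f : ℝ × ℝ → ℝ} (h : Slope f)
    (hor : ∃ k : ℕ, Integrable (fun x : ℝ × ℝ => f x / (1 + |x.2|) ^ k)) :
    ∀ᵐ x : ℝ × ℝ, f x = 0 := by
  refine ae_eq_zero_of_integral_contDiff_smul_eq_zero h.locInt fun φ hφ hc => ?_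
  have hφc := hφ.continuous
  obtain ⟨C, k, hb⟩ := Fr_bound h hφc hc
  have hFc := Fr_continuous h hφc hc
  have haxis : ∀ κ : ℝ → ℂ, Dens κ →
      ∫ x : ℝ, ((Fr f φ (x, 0) : ℝ) : ℂ) * 𝓕 κ x = 0 := by
    intro κ hκ
    refine axis_zero (F := fun y => ((Fr f φ y : ℝ) : ℂ)) (C0 := C) (k := k)
      (Complex.continuous_ofReal.comp hFc) ?_ ?_ hκ
    · intro y
      rw [Complex.norm_real]
      exact hb y
    · intro R m κ' hm hκ'
      exact T_Fr h hφc hc hκ' hm
  have h0 := zero_of_freq (F := fun x : ℝ => ((Fr f φ (x, 0) : ℝ) : ℂ))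
    (Complex.continuous_ofReal.comp (hFc.comp (by fun_prop)))
    (Fr_axis h hor hφc hc).ofReal (fun x => Complex.conj_ofReal _) haxis 0
  have h1 : Fr f φ (0, 0) = 0 := by exact_mod_cast h0
  unfold Fr at h1
  rw [← h1]
  refine integral_congr_ae (Eventually.of_forall fun z => ?_)
  have h2 : ((0 : ℝ), (0 : ℝ)) + z = z := zero_add z
  simp only [h2, smul_eq_mul]
  ring

end Pool.Agent.Helper34.Radon
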