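import Pool.Agent.Helper34.Radon.Axis

set_option autoImplicit false

open MeasureTheory Real Complex Filter Topology Set
open scoped FourierTransform ContDiff ENNReal Convolution

noncomputable section

namespace Pool.Agent.Helper34.Radon

/-- hypotheses in slope form -/
structure Slope (f : ℝ × ℝ → ℝ) : Prop where
  tempered : ∃ k : ℕ, Integrable (fun y : ℝ × ℝ => f y / (1 + ‖y‖) ^ k)
  alt : ∀ t : ℝ, (∃ k : ℕ, Integrable (fun y : ℝ × ℝ => f y / (1 + |y.1 + t * y.2|) ^ k)) ∨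
    ∃ ε : ℝ, 0 < ε ∧ IntegrableOn (fun y : ℝ × ℝ => f y / (1 + ‖y‖))
      {y : ℝ × ℝ | |y.1 + t * y.2| ≤ ε * ‖y‖}
  zero : ∀ t : ℝ, ∀ᵐ p : ℝ, ∫ s : ℝ, f (p - t * s, s) = 0

theorem Slope.meas {f : ℝ × ℝ → ℝ} (h : Slope f) : AEStronglyMeasurable f volume := by
  obtain ⟨k, hk⟩ := h.tempered
  have h1 : AEStronglyMeasurable (fun y : ℝ × ℝ => f y / (1 + ‖y‖) ^ k * (1 + ‖y‖) ^ k) volume :=
    hk.aestronglyMeasurable.mul (Continuous.aestronglyMeasurable (by fun_prop))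
  refine h1.congr (Eventually.of_forall fun y => ?_)
  have : (1 + ‖y‖) ^ k ≠ 0 := by positivity
  simp only
  field_simp

theorem Slope.locInt {f : ℝ × ℝ → ℝ} (h : Slope f) : LocallyIntegrable f volume := by
  obtain ⟨k, hk⟩ := h.tempered
  have h1 : LocallyIntegrable
      (fun y : ℝ × ℝ => f y / (1 + ‖y‖) ^ k * (1 + ‖y‖) ^ k) volume :=
    hk.locallyIntegrable.mul_continuous (by fun_prop)
  have h2 : (fun y : ℝ × ℝ => f y / (1 + ‖y‖) ^ k * (1 + ‖y‖) ^ k) = f := by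
    funext y
    have : (1 + ‖y‖) ^ k ≠ 0 := by positivity
    field_simp
  rwa [h2] at h1

theorem one_add_norm_add (y z : ℝ × ℝ) : 1 + ‖y + z‖ ≤ (1 + ‖y‖) * (1 + ‖z‖) := by
  have h1 := norm_add_le y z
  have h2 := mul_nonneg (norm_nonneg y) (norm_nonneg z)
  nlinarith

/-- translates are admissible -/
theorem Slope.adm {f : ℝ × ℝ → ℝ} (h : Slope f) (z : ℝ × ℝ) :
    Adm (fun y : ℝ × ℝ => ((f (y + z) : ℝ) : ℂ)) := by
  have hmz : AEStronglyMeasurable (fun y : ℝ × ℝ => f (y + z)) volume :=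
    h.meas.comp_quasiMeasurePreserving
      (measurePreserving_add_right (volume : Measure (ℝ × ℝ)) z).quasiMeasurePreserving
  have hmeas : AEStronglyMeasurable (fun y : ℝ × ℝ => ((f (y + z) : ℝ) : ℂ)) volume :=
    Complex.continuous_ofReal.comp_aestronglyMeasurable hmz
  have htemp : ∃ k : ℕ, Integrable (fun y : ℝ × ℝ => ‖((f (y + z) : ℝ) : ℂ)‖ / (1 + ‖y‖) ^ k) := by
    obtain ⟨k, hk⟩ := h.tempered
    refine ⟨k, ?_⟩
    have h1 := (hk.comp_add_right z).norm.const_mul ((1 + ‖z‖) ^ k)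
    refine h1.mono' ?_ (Eventually.of_forall fun y => ?_)
    · refine hmeas.norm.mul (Continuous.aestronglyMeasurable ?_)
      exact Continuous.inv₀ (by fun_prop) (fun q => by positivity)
    · rw [Real.norm_of_nonneg (by positivity), Complex.norm_real, norm_div,
        Real.norm_of_nonneg (show (0 : ℝ) ≤ (1 + ‖y + z‖) ^ k by positivity), mul_div_assoc',
        div_le_div_iff₀ (by positivity) (by positivity)]
      have h2 : (1 + ‖y + z‖) ^ k ≤ ((1 + ‖y‖) * (1 + ‖z‖)) ^ k :=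
        pow_le_pow_left₀ (by positivity) (one_add_norm_add y z) k
      calc ‖f (y + z)‖ * (1 + ‖y + z‖) ^ k
          ≤ ‖f (y + z)‖ * ((1 + ‖y‖) * (1 + ‖z‖)) ^ k := by gcongr
        _ = _ := by rw [mul_pow]; ring
  refine ⟨hmeas, htemp, fun t => ?_, fun t => ?_⟩
  · rcases h.alt t with ⟨k, hk⟩ | ⟨ε, hε, hcone⟩
    · left
      refine ⟨k, ?_⟩
      set c : ℝ := |z.1 + t * z.2| with hc
      have hc0 : 0 ≤ c := abs_nonneg _
      have h1 := (hk.comp_add_right z).norm.const_mul ((1 + c) ^ k)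
      refine h1.mono' ?_ (Eventually.of_forall fun y => ?_)
      · refine hmeas.norm.mul (Continuous.aestronglyMeasurable ?_)
        exact Continuous.inv₀ (by fun_prop) (fun q => by positivity)
      · rw [Real.norm_of_nonneg (by positivity), Complex.norm_real, norm_div,
          Real.norm_of_nonneg (show (0 : ℝ) ≤ (1 + |(y + z).1 + t * (y + z).2|) ^ k by positivity),
          mul_div_assoc', div_le_div_iff₀ (by positivity) (by positivity)]
        have h3 : 1 + |(y + z).1 + t * (y + z).2| ≤ (1 + |y.1 + t * y.2|) * (1 + c) := by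
          have h4 : (y + z).1 + t * (y + z).2 = (y.1 + t * y.2) + (z.1 + t * z.2) := by
            simp only [Prod.fst_add, Prod.snd_add]
            ring
          have h5 := abs_add_le (y.1 + t * y.2) (z.1 + t * z.2)
          rw [h4]
          have h6 := mul_nonneg (abs_nonneg (y.1 + t * y.2)) hc0
          nlinarith
        have h2 : (1 + |(y + z).1 + t * (y + z).2|) ^ k ≤
            ((1 + |y.1 + t * y.2|) * (1 + c)) ^ k := pow_le_pow_left₀ (by positivity) h3 k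
        calc ‖f (y + z)‖ * (1 + |(y + z).1 + t * (y + z).2|) ^ k
            ≤ ‖f (y + z)‖ * ((1 + |y.1 + t * y.2|) * (1 + c)) ^ k := by gcongr
          _ = _ := by rw [mul_pow]; ring
    · right
      refine ⟨ε / 2, half_pos hε, ?_⟩
      obtain ⟨k, hk⟩ := h.tempered
      set c : ℝ := |z.1 + t * z.2| with hc
      have hc0 : 0 ≤ c := abs_nonneg _
      set ρ : ℝ := 2 * (c + ε * ‖z‖) / ε with hρ
      have hρ0 : 0 ≤ ρ := by positivity
      set A : Set (ℝ × ℝ) := {y : ℝ × ℝ | |y.1 + t * y.2| ≤ ε * ‖y‖} with hA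
      have hAm : MeasurableSet A := by
        refine (isClosed_le ?_ ?_).measurableSet
        · fun_prop
        · fun_prop
      set A' : Set (ℝ × ℝ) := {y : ℝ × ℝ | |y.1 + t * y.2| ≤ ε / 2 * ‖y‖} with hA'
      have hAm' : MeasurableSet A' := by
        refine (isClosed_le ?_ ?_).measurableSet
        · fun_prop
        · fun_prop
      have h1 : Integrable (A.indicator (fun y : ℝ × ℝ => f y / (1 + ‖y‖))) :=
        hcone.integrable_indicator hAm
      have h2 := ((h1.comp_add_right z).norm.const_mul (1 + ‖z‖)).add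
        ((hk.comp_add_right z).norm.const_mul ((1 + ρ + ‖z‖) ^ k))
      show Integrable _ (volume.restrict A')
      refine (h2.restrict (s := A')).mono' ?_ ?_
      · refine AEStronglyMeasurable.restrict ?_
        refine hmeas.norm.mul (Continuous.aestronglyMeasurable ?_)
        exact Continuous.inv₀ (by fun_prop) (fun q => by positivity)
      · filter_upwards [ae_restrict_mem hAm'] with y hy
        rw [Real.norm_of_nonneg (by positivity), Complex.norm_real]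
        simp only [Pi.add_apply]
        have hy' : |y.1 + t * y.2| ≤ ε / 2 * ‖y‖ := hy
        rcases le_or_gt ρ ‖y‖ with hr | hr
        · have hmem : y + z ∈ A := by
            show |(y + z).1 + t * (y + z).2| ≤ ε * ‖y + z‖
            have h4 : (y + z).1 + t * (y + z).2 = (y.1 + t * y.2) + (z.1 + t * z.2) := by
              simp only [Prod.fst_add, Prod.snd_add]
              ring
            have h5 := abs_add_le (y.1 + t * y.2) (z.1 + t * z.2)
            have h6 : ‖y‖ ≤ ‖y + z‖ + ‖z‖ := by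
              have := norm_sub_le (y + z) z
              rwa [add_sub_cancel_right] at this
            rw [h4]
            have h7 : 2 * (c + ε * ‖z‖) ≤ ‖y‖ * ε := by
              rw [hρ, div_le_iff₀ hε] at hr
              exact hr
            nlinarith
          rw [Set.indicator_of_mem hmem]
          have h8 : ‖f (y + z)‖ / (1 + ‖y‖) ≤ (1 + ‖z‖) * ‖f (y + z) / (1 + ‖y + z‖)‖ := by
            rw [norm_div, Real.norm_of_nonneg (show (0 : ℝ) ≤ 1 + ‖y + z‖ by positivity),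
              mul_div_assoc', div_le_div_iff₀ (by positivity) (by positivity)]
            calc ‖f (y + z)‖ * (1 + ‖y + z‖)
                ≤ ‖f (y + z)‖ * ((1 + ‖y‖) * (1 + ‖z‖)) := by
                  gcongr
                  exact one_add_norm_add y z
              _ = _ := by ring
          have h9 : 0 ≤ (1 + ρ + ‖z‖) ^ k * ‖f (y + z) / (1 + ‖y + z‖) ^ k‖ := by positivity
          linarith
        · have h8 : ‖f (y + z)‖ / (1 + ‖y‖) ≤
              (1 + ρ + ‖z‖) ^ k * ‖f (y + z) / (1 + ‖y + z‖) ^ k‖ := by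
            rw [norm_div, Real.norm_of_nonneg (show (0 : ℝ) ≤ (1 + ‖y + z‖) ^ k by positivity),
              mul_div_assoc', div_le_div_iff₀ (by positivity) (by positivity)]
            have h10 : (1 + ‖y + z‖) ^ k ≤ (1 + ρ + ‖z‖) ^ k := by
              refine pow_le_pow_left₀ (by positivity) ?_ k
              have := norm_add_le y z
              linarith
            have h11 : (1 : ℝ) ≤ 1 + ‖y‖ := by linarith [norm_nonneg y]
            calc ‖f (y + z)‖ * (1 + ‖y + z‖) ^ k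
                ≤ ‖f (y + z)‖ * (1 + ρ + ‖z‖) ^ k := by gcongr
              _ = (1 + ρ + ‖z‖) ^ k * ‖f (y + z)‖ * 1 := by ring
              _ ≤ _ := by gcongr
          have h9 : 0 ≤ (1 + ‖z‖) *
              ‖A.indicator (fun y : ℝ × ℝ => f y / (1 + ‖y‖)) (y + z)‖ := by positivity
          linarith
  · have h1 : Measure.QuasiMeasurePreserving (fun p : ℝ => p + (z.1 + t * z.2)) volume volume :=
      (measurePreserving_add_right (volume : Measure ℝ) _).quasiMeasurePreserving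
    filter_upwards [h1.ae (h.zero t)] with p hp
    have h2 : ∫ s : ℝ, ((f ((p - t * s, s) + z) : ℝ) : ℂ) =
        ((∫ s : ℝ, f ((p - t * s, s) + z) : ℝ) : ℂ) := integral_ofReal
    rw [h2]
    have h3 : ∫ s : ℝ, f ((p - t * s, s) + z) =
        ∫ s : ℝ, (fun s => f (p + (z.1 + t * z.2) - t * s, s)) (s + z.2) := by
      refine integral_congr_ae (Eventually.of_forall fun s => ?_)
      simp only
      congr 1
      refine Prod.ext ?_ ?_
      · simp only [Prod.fst_add]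
        ring
      · simp only [Prod.snd_add]
    rw [h3, integral_add_right_eq_self (fun s => f (p + (z.1 + t * z.2) - t * s, s)) z.2, hp]
    simp

theorem T_translate {f : ℝ × ℝ → ℝ} (h : Slope f) (z : ℝ × ℝ) {κ : ℝ → ℂ} (hκ : Dens κ) {R : ℝ}
    {m : ℝ → ℂ} (hm : Win R m) :
    ∫ y : ℝ × ℝ, ((f (y + z) : ℝ) : ℂ) * H m κ y.1 y.2 = 0 :=
  T_zero (h.adm z) hκ hm

/-- mollified function -/
def Fr (f φ : ℝ × ℝ → ℝ) (y : ℝ × ℝ) : ℝ := ∫ z : ℝ × ℝ, f (y + z) * φ z

theorem weight_bound {φ : ℝ × ℝ → ℝ} (hφ : Continuous φ) (hc : HasCompactSupport φ) (k : ℕ) :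
    ∃ M : ℝ, 0 ≤ M ∧ ∀ z : ℝ × ℝ, (1 + ‖z‖) ^ k * |φ z| ≤ M := by
  have h1 : Continuous (fun z : ℝ × ℝ => (1 + ‖z‖) ^ k * φ z) := by fun_prop
  obtain ⟨M, hM⟩ := (hc.mul_left (f := fun z : ℝ × ℝ => (1 + ‖z‖) ^ k)).exists_bound_of_continuous h1
  refine ⟨M, (norm_nonneg _).trans (hM 0), fun z => ?_⟩
  have := hM z
  rwa [Pi.mul_apply, norm_mul, Real.norm_of_nonneg (show (0 : ℝ) ≤ (1 + ‖z‖) ^ k by positivity),
    Real.norm_eq_abs] at this

theorem Fr_bound {f : ℝ × ℝ → ℝ} (h : Slope f) {φ : ℝ × ℝ → ℝ} (hφ : Continuous φ)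
    (hc : HasCompactSupport φ) : ∃ C : ℝ, ∃ k : ℕ, ∀ y, ‖Fr f φ y‖ ≤ C * (1 + ‖y‖) ^ k := by
  obtain ⟨k, hk⟩ := h.tempered
  obtain ⟨M, hM0, hM⟩ := weight_bound hφ hc k
  refine ⟨M * ∫ x : ℝ × ℝ, ‖f x / (1 + ‖x‖) ^ k‖, k, fun y => ?_⟩
  unfold Fr
  have h1 : ∫ x : ℝ × ℝ, ‖f x / (1 + ‖x‖) ^ k‖ =
      ∫ z : ℝ × ℝ, ‖f (y + z) / (1 + ‖y + z‖) ^ k‖ :=
    (integral_add_left_eq_self (fun x : ℝ × ℝ => ‖f x / (1 + ‖x‖) ^ k‖) y).symm
  rw [h1]
  have h2 : M * (∫ z : ℝ × ℝ, ‖f (y + z) / (1 + ‖y + z‖) ^ k‖) * (1 + ‖y‖) ^ k =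
      ∫ z : ℝ × ℝ, M * (1 + ‖y‖) ^ k * ‖f (y + z) / (1 + ‖y + z‖) ^ k‖ := by
    rw [integral_const_mul]
    ring
  rw [h2]
  refine norm_integral_le_of_norm_le ((hk.comp_add_left y).norm.const_mul _)
    (Eventually.of_forall fun z => ?_)
  rw [norm_mul, norm_div, Real.norm_of_nonneg (show (0 : ℝ) ≤ (1 + ‖y + z‖) ^ k by positivity),
    mul_div_assoc', le_div_iff₀ (by positivity)]
  have h3 : (1 + ‖y + z‖) ^ k ≤ ((1 + ‖y‖) * (1 + ‖z‖)) ^ k :=
    pow_le_pow_left₀ (by positivity) (one_add_norm_add y z) k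
  have h4 := hM z
  rw [Real.norm_eq_abs (φ z)]
  calc ‖f (y + z)‖ * |φ z| * (1 + ‖y + z‖) ^ k
      ≤ ‖f (y + z)‖ * |φ z| * ((1 + ‖y‖) * (1 + ‖z‖)) ^ k := by gcongr
    _ = (1 + ‖y‖) ^ k * ‖f (y + z)‖ * ((1 + ‖z‖) ^ k * |φ z|) := by rw [mul_pow]; ring
    _ ≤ (1 + ‖y‖) ^ k * ‖f (y + z)‖ * M := by gcongr
    _ = _ := by ring

theorem Fr_continuous {f : ℝ × ℝ → ℝ} (h : Slope f) {φ : ℝ × ℝ → ℝ} (hφ : Continuous φ)
    (hc : HasCompactSupport φ) : Continuous (Fr f φ) := by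
  have h1 : HasCompactSupport (fun u : ℝ × ℝ => φ (-u)) :=
    hc.comp_homeomorph (Homeomorph.neg (ℝ × ℝ))
  have h2 : Continuous (f ⋆[ContinuousLinearMap.mul ℝ ℝ, volume] (fun u : ℝ × ℝ => φ (-u))) :=
    h1.continuous_convolution_right _ h.locInt (hφ.comp continuous_neg)
  have h3 : (f ⋆[ContinuousLinearMap.mul ℝ ℝ, volume] (fun u : ℝ × ℝ => φ (-u))) = Fr f φ := by
    funext y
    rw [convolution_def]
    unfold Fr
    rw [← integral_add_left_eq_self (fun x : ℝ × ℝ =>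
      (ContinuousLinearMap.mul ℝ ℝ) (f x) (φ (-(y - x)))) y]
    refine integral_congr_ae (Eventually.of_forall fun z => ?_)
    simp only [ContinuousLinearMap.mul_apply']
    congr 2
    abel
  rwa [h3] at h2

theorem T_Fr {f : ℝ × ℝ → ℝ} (h : Slope f) {φ : ℝ × ℝ → ℝ} (hφ : Continuous φ)
    (hc : HasCompactSupport φ) {κ : ℝ → ℂ} (hκ : Dens κ) {R : ℝ} {m : ℝ → ℂ} (hm : Win R m) :
    T (fun y => ((Fr f φ y : ℝ) : ℂ)) m κ = 0 := by
  unfold T
  have h1 : ∀ y : ℝ × ℝ, ((Fr f φ y : ℝ) : ℂ) * H m κ y.1 y.2 =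
      ∫ z : ℝ × ℝ, ((f (y + z) : ℝ) : ℂ) * φ z * H m κ y.1 y.2 := by
    intro y
    unfold Fr
    have h2 : ((∫ z : ℝ × ℝ, f (y + z) * φ z : ℝ) : ℂ) =
        ∫ z : ℝ × ℝ, ((f (y + z) * φ z : ℝ) : ℂ) := integral_ofReal.symm
    rw [h2, ← integral_mul_const]
    refine integral_congr_ae (Eventually.of_forall fun z => ?_)
    simp only [Complex.ofReal_mul]
  simp_rw [h1]
  rw [integral_integral_swap]
  · have h2 : ∀ z : ℝ × ℝ, ∫ y : ℝ × ℝ, ((f (y + z) : ℝ) : ℂ) * φ z * H m κ y.1 y.2 = 0 := by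
      intro z
      have h3 : ∀ y : ℝ × ℝ, ((f (y + z) : ℝ) : ℂ) * φ z * H m κ y.1 y.2 =
          (φ z : ℂ) * (((f (y + z) : ℝ) : ℂ) * H m κ y.1 y.2) := fun y => by ring
      simp_rw [h3]
      rw [integral_const_mul, T_translate h z hκ hm, mul_zero]
    simp_rw [h2]
    simp
  · obtain ⟨k, hk⟩ := h.tempered
    obtain ⟨M, hM0, hM⟩ := weight_bound hφ hc (k + 4)
    obtain ⟨C, hC0, hC⟩ := H_bound hm hκ k k
    have hi : Integrable (fun x : ℝ => (1 + x ^ 2)⁻¹) := integrable_inv_one_add_sq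
    have hψ : Integrable (fun z : ℝ × ℝ => (1 + z.1 ^ 2)⁻¹ * (1 + z.2 ^ 2)⁻¹)
        (volume : Measure (ℝ × ℝ)) := hi.mul_prod hi
    have h4 : Integrable (fun q : (ℝ × ℝ) × (ℝ × ℝ) => (C * M) * (‖f q.1 / (1 + ‖q.1‖) ^ k‖ *
        ((1 + q.2.1 ^ 2)⁻¹ * (1 + q.2.2 ^ 2)⁻¹)))
        ((volume : Measure (ℝ × ℝ)).prod volume) :=
      (hk.norm.mul_prod hψ).const_mul _
    have h5 := (measurePreserving_add_prod (volume : Measure (ℝ × ℝ))
      (volume : Measure (ℝ × ℝ))).integrable_comp_of_integrable h4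
    refine h5.mono' ?_ (Eventually.of_forall fun q => ?_)
    · simp only [Function.uncurry_def]
      have hqm : AEStronglyMeasurable (fun q : (ℝ × ℝ) × (ℝ × ℝ) => f (q.1 + q.2))
          ((volume : Measure (ℝ × ℝ)).prod volume) := by
        have := (h.meas.comp_fst (ν := (volume : Measure (ℝ × ℝ)))).comp_quasiMeasurePreserving
          (measurePreserving_add_prod (volume : Measure (ℝ × ℝ))
            (volume : Measure (ℝ × ℝ))).quasiMeasurePreserving
        exact this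
      refine AEStronglyMeasurable.mul (AEStronglyMeasurable.mul ?_ ?_) ?_
      · exact Complex.continuous_ofReal.comp_aestronglyMeasurable hqm
      · refine Continuous.aestronglyMeasurable ?_
        exact Complex.continuous_ofReal.comp (hφ.comp continuous_snd)
      · refine Continuous.aestronglyMeasurable ?_
        exact Hcomp_continuous hm hκ (by fun_prop) (by fun_prop)
    · simp only [Function.uncurry, Function.comp_def]
      rw [norm_mul, norm_mul, Complex.norm_real, Complex.norm_real, norm_div,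
        Real.norm_of_nonneg (show (0 : ℝ) ≤ (1 + ‖q.1 + q.2‖) ^ k by positivity),
        Real.norm_eq_abs (φ q.2)]
      have e1 : (1 + ‖q.1 + q.2‖) ^ k ≤ ((1 + |q.1.1|) * (1 + |q.1.2|) * (1 + ‖q.2‖)) ^ k := by
        refine pow_le_pow_left₀ (by positivity) ?_ k
        calc 1 + ‖q.1 + q.2‖ ≤ (1 + ‖q.1‖) * (1 + ‖q.2‖) := one_add_norm_add _ _
          _ ≤ (1 + |q.1.1|) * (1 + |q.1.2|) * (1 + ‖q.2‖) := by
              have := one_add_norm_le q.1
              gcongr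
      have e2 := hC q.1.1 q.1.2
      have e3 := hM q.2
      have e4 : (1 + q.2.1 ^ 2) * (1 + q.2.2 ^ 2) ≤ (1 + ‖q.2‖) ^ 4 := by
        have f1 := abs_fst_le q.2
        have f2 := abs_snd_le q.2
        have f3 : 1 + q.2.1 ^ 2 ≤ (1 + ‖q.2‖) ^ 2 := by
          nlinarith [abs_nonneg q.2.1, sq_abs q.2.1, norm_nonneg q.2]
        have f4 : 1 + q.2.2 ^ 2 ≤ (1 + ‖q.2‖) ^ 2 := by
          nlinarith [abs_nonneg q.2.2, sq_abs q.2.2, norm_nonneg q.2]
        calc (1 + q.2.1 ^ 2) * (1 + q.2.2 ^ 2) ≤ (1 + ‖q.2‖) ^ 2 * (1 + ‖q.2‖) ^ 2 :=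
              mul_le_mul f3 f4 (by positivity) (by positivity)
          _ = _ := by ring
      have hp1 : 0 < (1 + ‖q.1 + q.2‖) ^ k := by positivity
      have hp2 : 0 < (1 + q.2.1 ^ 2) * (1 + q.2.2 ^ 2) := by positivity
      have key : |φ q.2| * ‖H m κ q.1.1 q.1.2‖ * (1 + ‖q.1 + q.2‖) ^ k *
          ((1 + q.2.1 ^ 2) * (1 + q.2.2 ^ 2)) ≤ C * M := by
        calc |φ q.2| * ‖H m κ q.1.1 q.1.2‖ * (1 + ‖q.1 + q.2‖) ^ k *
              ((1 + q.2.1 ^ 2) * (1 + q.2.2 ^ 2))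
            ≤ |φ q.2| * ‖H m κ q.1.1 q.1.2‖ *
              ((1 + |q.1.1|) * (1 + |q.1.2|) * (1 + ‖q.2‖)) ^ k * (1 + ‖q.2‖) ^ 4 := by gcongr
          _ = (‖H m κ q.1.1 q.1.2‖ * (1 + |q.1.1|) ^ k * (1 + |q.1.2|) ^ k) *
              ((1 + ‖q.2‖) ^ (k + 4) * |φ q.2|) := by
                rw [mul_pow, mul_pow, pow_add]; ring
          _ ≤ C * M := mul_le_mul e2 e3 (by positivity) hC0
      have hrw : C * M * (‖f (q.1 + q.2)‖ / (1 + ‖q.1 + q.2‖) ^ k *
          ((1 + q.2.1 ^ 2)⁻¹ * (1 + q.2.2 ^ 2)⁻¹)) =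
          ‖f (q.1 + q.2)‖ * (C * M / ((1 + ‖q.1 + q.2‖) ^ k *
            ((1 + q.2.1 ^ 2) * (1 + q.2.2 ^ 2)))) := by
        field_simp
      rw [hrw, mul_assoc]
      refine mul_le_mul_of_nonneg_left ?_ (norm_nonneg _)
      rw [le_div_iff₀ (by positivity)]
      calc |φ q.2| * ‖H m κ q.1.1 q.1.2‖ * ((1 + ‖q.1 + q.2‖) ^ k *
            ((1 + q.2.1 ^ 2) * (1 + q.2.2 ^ 2)))
          = |φ q.2| * ‖H m κ q.1.1 q.1.2‖ * (1 + ‖q.1 + q.2‖) ^ k *
            ((1 + q.2.1 ^ 2) * (1 + q.2.2 ^ 2)) := by ring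
        _ ≤ C * M := key

end Pool.Agent.Helper34.Radon
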