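import Pool.Agent.Helper34.Radon.HBound

set_option autoImplicit false

open MeasureTheory Real Complex Filter Topology Set
open scoped FourierTransform ContDiff

noncomputable section

namespace Pool.Agent.Helper34.Radon

/-- pairing of `g` with the kernel -/
def T (g : ℝ × ℝ → ℂ) (m κ : ℝ → ℂ) : ℂ := ∫ y : ℝ × ℝ, g y * H m κ y.1 y.2

/-- rescaled pairing with a window of width `1 / S` around the slope `t` -/
def Phi (g : ℝ × ℝ → ℂ) (μ κ : ℝ → ℂ) (S t : ℝ) : ℂ :=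
  ∫ y : ℝ × ℝ, g y * H μ κ (y.1 + t * y.2) (y.2 / S)

/-- weighted integrability in the direction of slope `t` -/
def WA (g : ℝ × ℝ → ℂ) (t : ℝ) : Prop :=
  ∃ k : ℕ, Integrable (fun y : ℝ × ℝ => ‖g y‖ / (1 + |y.1 + t * y.2|) ^ k)

/-- integrability of `g / (1 + ‖y‖)` on a cone around the lines of slope `t` -/
def WB (g : ℝ × ℝ → ℂ) (t : ℝ) : Prop :=
  ∃ ε : ℝ, 0 < ε ∧
    IntegrableOn (fun y : ℝ × ℝ => ‖g y‖ / (1 + ‖y‖)) {y : ℝ × ℝ | |y.1 + t * y.2| ≤ ε * ‖y‖}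

/-- the admissible functions: tempered, one of the two integrability conditions in every
direction, vanishing line integrals -/
structure Adm (g : ℝ × ℝ → ℂ) : Prop where
  meas : AEStronglyMeasurable g volume
  tempered : ∃ k : ℕ, Integrable (fun y : ℝ × ℝ => ‖g y‖ / (1 + ‖y‖) ^ k)
  alt : ∀ t : ℝ, WA g t ∨ WB g t
  zero : ∀ t : ℝ, ∀ᵐ p : ℝ, ∫ s : ℝ, g (p - t * s, s) = 0

theorem wt_mono {g : ℝ × ℝ → ℂ} (hg : AEStronglyMeasurable g volume) {t : ℝ} {k n : ℕ}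
    (hkn : k ≤ n) (h : Integrable (fun y : ℝ × ℝ => ‖g y‖ / (1 + |y.1 + t * y.2|) ^ k)) :
    Integrable (fun y : ℝ × ℝ => ‖g y‖ / (1 + |y.1 + t * y.2|) ^ n) := by
  refine h.mono' ?_ (Eventually.of_forall fun y => ?_)
  · refine hg.norm.mul (Continuous.aestronglyMeasurable ?_)
    refine Continuous.inv₀ (by fun_prop) (fun y => by positivity)
  · rw [Real.norm_of_nonneg (by positivity)]
    refine div_le_div_of_nonneg_left (norm_nonneg _) (by positivity) ?_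
    exact pow_le_pow_right₀ (by linarith [abs_nonneg (y.1 + t * y.2)]) hkn

theorem one_add_norm_le (y : ℝ × ℝ) : 1 + ‖y‖ ≤ (1 + |y.1|) * (1 + |y.2|) := by
  rw [Prod.norm_def, Real.norm_eq_abs, Real.norm_eq_abs]
  have h1 := abs_nonneg y.1
  have h2 := abs_nonneg y.2
  have h3 := mul_nonneg h1 h2
  rcases max_cases |y.1| |y.2| with h | h <;> nlinarith

theorem abs_fst_le (y : ℝ × ℝ) : |y.1| ≤ ‖y‖ := by
  rw [← Real.norm_eq_abs]
  exact norm_fst_le y

theorem abs_snd_le (y : ℝ × ℝ) : |y.2| ≤ ‖y‖ := by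
  rw [← Real.norm_eq_abs]
  exact norm_snd_le y

theorem div_bound {S : ℝ} (hS : 0 < S) (s : ℝ) : 1 + |s| ≤ (1 + S) * (1 + |s / S|) := by
  rw [abs_div, abs_of_pos hS]
  have h1 : |s| / S * S = |s| := div_mul_cancel₀ _ hS.ne'
  have h2 : 0 ≤ |s| / S := by positivity
  nlinarith [abs_nonneg s]

/-- bound of the window kernel by a tempered weight -/
theorem Hwin_bound {R : ℝ} {μ κ : ℝ → ℂ} (hμ : Win R μ) (hκ : Dens κ) (k : ℕ) :
    ∃ C : ℝ, 0 ≤ C ∧ ∀ S : ℝ, 0 < S → ∀ t : ℝ, ∀ y : ℝ × ℝ,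
      ‖H μ κ (y.1 + t * y.2) (y.2 / S)‖ ≤
        C * ((1 + |t|) * (1 + S) ^ 2) ^ k / (1 + ‖y‖) ^ k := by
  obtain ⟨C, h0, hC⟩ := H_bound hμ hκ k (2 * k)
  refine ⟨C, h0, fun S hS t y => ?_⟩
  rw [le_div_iff₀ (by positivity)]
  have h1 : 1 + |y.1| ≤ (1 + |y.1 + t * y.2|) * ((1 + |t|) * (1 + |y.2|)) :=
    one_add_abs_le (|t|) y.1 y.2 t le_rfl
  have h2 := div_bound hS y.2
  have h3 : 1 + ‖y‖ ≤
      (1 + |y.1 + t * y.2|) * (1 + |y.2 / S|) ^ 2 * ((1 + |t|) * (1 + S) ^ 2) := by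
    calc 1 + ‖y‖ ≤ (1 + |y.1|) * (1 + |y.2|) := one_add_norm_le y
      _ ≤ (1 + |y.1 + t * y.2|) * ((1 + |t|) * (1 + |y.2|)) * (1 + |y.2|) := by gcongr
      _ = (1 + |y.1 + t * y.2|) * (1 + |t|) * (1 + |y.2|) ^ 2 := by ring
      _ ≤ (1 + |y.1 + t * y.2|) * (1 + |t|) * ((1 + S) * (1 + |y.2 / S|)) ^ 2 := by gcongr
      _ = _ := by ring
  have h4 : (1 + ‖y‖) ^ k ≤
      ((1 + |y.1 + t * y.2|) * (1 + |y.2 / S|) ^ 2 * ((1 + |t|) * (1 + S) ^ 2)) ^ k :=
    pow_le_pow_left₀ (by positivity) h3 k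
  calc ‖H μ κ (y.1 + t * y.2) (y.2 / S)‖ * (1 + ‖y‖) ^ k
      ≤ ‖H μ κ (y.1 + t * y.2) (y.2 / S)‖ *
        ((1 + |y.1 + t * y.2|) * (1 + |y.2 / S|) ^ 2 * ((1 + |t|) * (1 + S) ^ 2)) ^ k := by
          gcongr
    _ = (‖H μ κ (y.1 + t * y.2) (y.2 / S)‖ * (1 + |y.1 + t * y.2|) ^ k *
        (1 + |y.2 / S|) ^ (2 * k)) * ((1 + |t|) * (1 + S) ^ 2) ^ k := by
          rw [mul_pow, mul_pow, ← pow_mul]; ring
    _ ≤ C * ((1 + |t|) * (1 + S) ^ 2) ^ k := by
        refine mul_le_mul_of_nonneg_right (hC _ _) (by positivity)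

theorem fourier_bdd {κ : ℝ → ℂ} (hκ : Dens κ) : ∃ C : ℝ, 0 ≤ C ∧ ∀ z : ℝ, ‖𝓕 κ z‖ ≤ C := by
  obtain ⟨C, h0, h⟩ := hκ.decay 0
  exact ⟨C, h0, fun z => by simpa using h z⟩

/-- Fubini for two windows -/
theorem window_swap {R R' : ℝ} {m μ κ : ℝ → ℂ} (hm : Win R m) (hμ : Win R' μ) (hκ : Dens κ)
    (S : ℝ) (y : ℝ × ℝ) :
    ∫ t : ℝ, m t * H μ κ (y.1 + t * y.2) (y.2 / S) =
      ∫ σ : ℝ, μ σ * H m κ (y.1 + σ * (S⁻¹ * y.2)) y.2 := by
  obtain ⟨C, h0, hC⟩ := fourier_bdd hκ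
  unfold H
  simp_rw [← integral_const_mul]
  rw [integral_integral_swap]
  · refine integral_congr_ae (Eventually.of_forall fun σ => ?_)
    simp only
    refine integral_congr_ae (Eventually.of_forall fun t => ?_)
    simp only
    have : y.1 + t * y.2 + σ * (y.2 / S) = y.1 + σ * (S⁻¹ * y.2) + t * y.2 := by
      rw [div_eq_mul_inv]; ring
    rw [this]; ring
  · have h1 : Integrable (fun z : ℝ × ℝ => (‖m z.1‖ * C) * ‖μ z.2‖) :=
      Integrable.mul_prod (hm.integrable.norm.mul_const C) hμ.integrable.norm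
    refine h1.mono' ?_ (Eventually.of_forall fun z => ?_)
    · refine Continuous.aestronglyMeasurable ?_
      refine Continuous.mul (hm.smooth.continuous.comp continuous_fst) ?_
      refine Continuous.mul (hμ.smooth.continuous.comp continuous_snd) ?_
      exact hκ.continuous.comp (by fun_prop)
    · simp only [Function.uncurry]
      rw [norm_mul, norm_mul]
      have := hC (y.1 + z.1 * y.2 + z.2 * (y.2 / S))
      calc ‖m z.1‖ * (‖μ z.2‖ * ‖𝓕 κ (y.1 + z.1 * y.2 + z.2 * (y.2 / S))‖)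
          ≤ ‖m z.1‖ * (‖μ z.2‖ * C) := by gcongr
        _ = _ := by ring

theorem Hcomp_continuous {R : ℝ} {μ κ : ℝ → ℂ} (hμ : Win R μ) (hκ : Dens κ) {X : Type*}
    [TopologicalSpace X] {a b : X → ℝ} (ha : Continuous a) (hb : Continuous b) :
    Continuous (fun x => H μ κ (a x) (b x)) := by
  have h1 : Continuous (fun x => (a x, b x)) := ha.prodMk hb
  have h2 := (H_continuous hμ hκ).comp h1
  simpa only [Function.comp_def] using h2

/-- averaging the windows -/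
theorem average_windows {g : ℝ × ℝ → ℂ} (hg : Adm g) {R R' : ℝ} {m μ κ : ℝ → ℂ}
    (hm : Win R m) (hμ : Win R' μ) (hκ : Dens κ) {S : ℝ} (hS : 0 < S) :
    ∫ t : ℝ, m t * Phi g μ κ S t =
      ∫ y : ℝ × ℝ, g y * ∫ σ : ℝ, μ σ * H m κ (y.1 + σ * (S⁻¹ * y.2)) y.2 := by
  obtain ⟨k, hk⟩ := hg.tempered
  obtain ⟨C, h0, hC⟩ := Hwin_bound hμ hκ k
  unfold Phi
  simp_rw [← integral_const_mul]
  rw [integral_integral_swap]
  · refine integral_congr_ae (Eventually.of_forall fun y => ?_)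
    simp only
    rw [integral_const_mul, ← window_swap hm hμ hκ S y, ← integral_const_mul]
    refine integral_congr_ae (Eventually.of_forall fun t => ?_)
    simp only
    ring
  · have h1 : Integrable (fun z : ℝ × (ℝ × ℝ) =>
        (‖m z.1‖ * (C * ((1 + |R|) * (1 + S) ^ 2) ^ k)) * (‖g z.2‖ / (1 + ‖z.2‖) ^ k))
        (volume.prod volume) :=
      Integrable.mul_prod (hm.integrable.norm.mul_const _) hk
    refine h1.mono' ?_ (Eventually.of_forall fun z => ?_)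
    · simp only [Function.uncurry_def]
      refine (hm.smooth.continuous.comp continuous_fst).aestronglyMeasurable.mul ?_
      refine (hg.meas.comp_snd).mul ?_
      refine Continuous.aestronglyMeasurable ?_
      exact Hcomp_continuous hμ hκ (by fun_prop) (by fun_prop)
    · simp only [Function.uncurry]
      rw [norm_mul, norm_mul]
      by_cases hz : m z.1 = 0
      · simp [hz]
      have hz1 : |z.1| ≤ |R| := (hm.supp _ hz).trans (le_abs_self R)
      have h2 := hC S hS z.1 z.2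
      calc ‖m z.1‖ * (‖g z.2‖ * ‖H μ κ (z.2.1 + z.1 * z.2.2) (z.2.2 / S)‖)
          ≤ ‖m z.1‖ * (‖g z.2‖ * (C * ((1 + |z.1|) * (1 + S) ^ 2) ^ k / (1 + ‖z.2‖) ^ k)) := by
            gcongr
        _ ≤ ‖m z.1‖ * (‖g z.2‖ * (C * ((1 + |R|) * (1 + S) ^ 2) ^ k / (1 + ‖z.2‖) ^ k)) := by
            gcongr
        _ = _ := by ring

/-- the averaged windows converge to the pairing -/
theorem average_tendsto {g : ℝ × ℝ → ℂ} (hg : Adm g) {R : ℝ} {m μ κ : ℝ → ℂ}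
    (hm : Win R m) (hμ : Win 1 μ) (hκ : Dens κ) :
    Tendsto (fun S : ℝ => ∫ t : ℝ, m t * Phi g μ κ S t) atTop (𝓝 ((∫ σ, μ σ) * T g m κ)) := by
  obtain ⟨k, hk⟩ := hg.tempered
  obtain ⟨C, h0, hC⟩ := H_bound hm hκ k (2 * k)
  have h1 : (fun S : ℝ => ∫ t : ℝ, m t * Phi g μ κ S t) =ᶠ[atTop]
      fun S : ℝ => ∫ y : ℝ × ℝ, g y * ∫ σ : ℝ, μ σ * H m κ (y.1 + σ * (S⁻¹ * y.2)) y.2 := by
    filter_upwards [eventually_gt_atTop 0] with S hS
    exact average_windows hg hm hμ hκ hS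
  rw [tendsto_congr' h1]
  have h2 : (∫ σ, μ σ) * T g m κ = ∫ y : ℝ × ℝ, g y * ((∫ σ, μ σ) * H m κ y.1 y.2) := by
    unfold T
    rw [← integral_const_mul]
    refine integral_congr_ae (Eventually.of_forall fun y => ?_)
    simp only
    ring
  rw [h2]
  have hcont : ∀ y : ℝ × ℝ, Continuous (fun r : ℝ =>
      ∫ σ : ℝ, μ σ * H m κ (y.1 + σ * (r * y.2)) y.2) := by
    intro y
    have h3 : ∀ r : ℝ, ∫ σ : ℝ, μ σ * H m κ (y.1 + σ * (r * y.2)) y.2 =
        ∫ σ in Icc (-1 : ℝ) 1, μ σ * H m κ (y.1 + σ * (r * y.2)) y.2 := by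
      intro r
      rw [setIntegral_eq_integral_of_forall_compl_eq_zero]
      intro σ hσ
      have : μ σ = 0 := by
        by_contra hne
        exact hσ (abs_le.1 (hμ.supp σ hne))
      simp [this]
    simp_rw [h3]
    refine continuous_parametric_integral_of_continuous ?_ isCompact_Icc
    refine (hμ.smooth.continuous.comp continuous_snd).mul ?_
    exact Hcomp_continuous hm hκ (by fun_prop) continuous_const
  refine tendsto_integral_filter_of_dominated_convergence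
    (fun y => (∫ σ, ‖μ σ‖) * C * (‖g y‖ / (1 + ‖y‖) ^ k)) ?_ ?_ ?_ ?_
  · filter_upwards [eventually_gt_atTop 0] with S hS
    refine hg.meas.mul ?_
    refine Continuous.aestronglyMeasurable ?_
    have h3 : ∀ y : ℝ × ℝ, ∫ σ : ℝ, μ σ * H m κ (y.1 + σ * (S⁻¹ * y.2)) y.2 =
        ∫ σ in Icc (-1 : ℝ) 1, μ σ * H m κ (y.1 + σ * (S⁻¹ * y.2)) y.2 := by
      intro y
      rw [setIntegral_eq_integral_of_forall_compl_eq_zero]
      intro σ hσ
      have : μ σ = 0 := by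
        by_contra hne
        exact hσ (abs_le.1 (hμ.supp σ hne))
      simp [this]
    simp_rw [h3]
    refine continuous_parametric_integral_of_continuous ?_ isCompact_Icc
    refine (hμ.smooth.continuous.comp continuous_snd).mul ?_
    exact Hcomp_continuous hm hκ (by fun_prop) (by fun_prop)
  · filter_upwards [eventually_ge_atTop 1] with S hS
    refine Eventually.of_forall fun y => ?_
    have hS0 : 0 < S := lt_of_lt_of_le one_pos hS
    rw [norm_mul]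
    have h4 : ‖∫ σ : ℝ, μ σ * H m κ (y.1 + σ * (S⁻¹ * y.2)) y.2‖ ≤
        ∫ σ, ‖μ σ‖ * (C / (1 + ‖y‖) ^ k) := by
      refine norm_integral_le_of_norm_le (hμ.integrable.norm.mul_const _)
        (Eventually.of_forall fun σ => ?_)
      rw [norm_mul]
      by_cases hσ0 : μ σ = 0
      · simp [hσ0]
      refine mul_le_mul_of_nonneg_left ?_ (norm_nonneg _)
      rw [le_div_iff₀ (by positivity)]
      have hσ := hμ.supp σ hσ0
      have h5 : |σ * S⁻¹| ≤ 1 := by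
        rw [abs_mul, abs_of_pos (inv_pos.2 hS0)]
        calc |σ| * S⁻¹ ≤ 1 * 1 := by
              gcongr
              exact inv_le_one_of_one_le₀ hS
          _ = 1 := one_mul 1
      have h6 : |y.1| ≤ |y.1 + σ * (S⁻¹ * y.2)| + |y.2| := by
        have h7 := abs_sub (y.1 + σ * (S⁻¹ * y.2)) (σ * (S⁻¹ * y.2))
        rw [add_sub_cancel_right] at h7
        have h8 : |σ * (S⁻¹ * y.2)| ≤ |y.2| := by
          rw [← mul_assoc, abs_mul]
          calc |σ * S⁻¹| * |y.2| ≤ 1 * |y.2| := by gcongr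
            _ = |y.2| := one_mul _
        linarith
      have h7 : 1 + |y.1| ≤ (1 + |y.1 + σ * (S⁻¹ * y.2)|) * (1 + |y.2|) := by
        nlinarith [abs_nonneg (y.1 + σ * (S⁻¹ * y.2)), abs_nonneg y.2,
          mul_nonneg (abs_nonneg (y.1 + σ * (S⁻¹ * y.2))) (abs_nonneg y.2)]
      have h8 : 1 + ‖y‖ ≤ (1 + |y.1 + σ * (S⁻¹ * y.2)|) * (1 + |y.2|) ^ 2 := by
        calc 1 + ‖y‖ ≤ (1 + |y.1|) * (1 + |y.2|) := one_add_norm_le y
          _ ≤ (1 + |y.1 + σ * (S⁻¹ * y.2)|) * (1 + |y.2|) * (1 + |y.2|) := by gcongr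
          _ = _ := by ring
      calc ‖H m κ (y.1 + σ * (S⁻¹ * y.2)) y.2‖ * (1 + ‖y‖) ^ k
          ≤ ‖H m κ (y.1 + σ * (S⁻¹ * y.2)) y.2‖ *
            ((1 + |y.1 + σ * (S⁻¹ * y.2)|) * (1 + |y.2|) ^ 2) ^ k := by gcongr
        _ = ‖H m κ (y.1 + σ * (S⁻¹ * y.2)) y.2‖ *
            (1 + |y.1 + σ * (S⁻¹ * y.2)|) ^ k * (1 + |y.2|) ^ (2 * k) := by
              rw [mul_pow, ← pow_mul]; ring
        _ ≤ C := hC _ _
    rw [integral_mul_const] at h4
    calc ‖g y‖ * ‖∫ σ : ℝ, μ σ * H m κ (y.1 + σ * (S⁻¹ * y.2)) y.2‖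
        ≤ ‖g y‖ * ((∫ σ, ‖μ σ‖) * (C / (1 + ‖y‖) ^ k)) := by gcongr
      _ = _ := by ring
  · exact hk.const_mul _
  · refine Eventually.of_forall fun y => ?_
    refine Tendsto.const_mul _ ?_
    have h5 : (∫ σ, μ σ) * H m κ y.1 y.2 =
        ∫ σ : ℝ, μ σ * H m κ (y.1 + σ * ((0 : ℝ) * y.2)) y.2 := by
      simp [integral_mul_const]
    rw [h5]
    exact ((hcont y).tendsto 0).comp tendsto_inv_atTop_zero

end Pool.Agent.Helper34.Radon
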